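import Mathlib

/-!
# The algorithm, as plain functions on lists of bits
-/

namespace Pool.Agent.H656R2.Annih.Algo

/-- componentwise exclusive or -/
def xorV (a b : List Bool) : List Bool := List.zipWith xor a b

/-- componentwise or -/
def orV (a b : List Bool) : List Bool := List.zipWith or a b

/-- do the two vectors have a common `true` entry -/
def meets (a b : List Bool) : Bool := (List.zipWith and a b).any id

/-- is every entry `false` -/
def isZero (a : List Bool) : Bool := !(a.any id)

/-- is `a` contained in `b` -/
def subV (a b : List Bool) : Bool := (List.zipWith (fun x y => !x || y) a b).all id

/-- identity matrix of size the length of `A` -/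
def units {α : Type} (A : List α) : List (List Bool) :=
  A.foldr (fun _ acc => (true :: acc.map (fun _ => false)) :: acc.map (fun v => false :: v)) []

/-- all vectors of weight at most `k` (as long as `A`) -/
def lowVecs {α : Type} (A : List α) : ℕ → List (List Bool)
  | 0 => [A.map fun _ => false]
  | k + 1 => (lowVecs A k).flatMap fun w => w :: (units A).map (orV w)

/-- the sets `W` of `min (k+1) |row|` elements of `row` -/
def choices {α : Type} (A : List α) (k : ℕ) (row : List Bool) : List (List Bool) :=
  (lowVecs A (k + 1)).filter fun W =>
    subV W row && (W == row || !(lowVecs A k).contains W)

/-- list of all pairs `(e_u, W)` giving a move (for `k + 1`-annihilation) -/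
def genList (sinks : Bool) (k : ℕ) (A : List (List Bool)) : List (List Bool × List Bool) :=
  ((units A).zip A).flatMap fun p =>
    if !sinks && isZero p.2 then [] else (choices A k p.2).map fun W => (p.1, W)

/-- the bit of `v` at the first `true` entry of `b` -/
def pivotBit (b v : List Bool) : Bool :=
  (b.zip v).foldr (fun p acc => if p.1 then p.2 else acc) false

/-- reduction of `v` by one basis vector -/
def reduceStep (v b : List Bool) : List Bool := if pivotBit b v then xorV v b else v

/-- reduction of `v` by a list of basis vectors -/
def reduce (B : List (List Bool)) (v : List Bool) : List Bool := B.foldl reduceStep v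

/-- insertion in an echelon basis -/
def insertV (B : List (List Bool)) (v : List Bool) : List (List Bool) :=
  if isZero (reduce B v) then B else B ++ [reduce B v]

/-- echelon basis of the span -/
def echelon (gs : List (List Bool)) : List (List Bool) := gs.foldl insertV []

/-- is `v` in the span of `gs` -/
def member (gs : List (List Bool)) (v : List Bool) : Bool := isZero (reduce (echelon gs) v)

/-- vector of a generator -/
def gvec (g : List Bool × List Bool) : List Bool := xorV g.1 g.2

/-- generators `(u, x)` with `x_u = 1` -/
def good (g : List Bool × List Bool) : Bool := meets g.1 (gvec g)

/-- candidates -/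
def cands (gens : List (List Bool × List Bool)) : List (List Bool) :=
  gens.flatMap fun g => (gens.filter good).map fun g' => xorV (gvec g) (gvec g')

/-- unit vectors of vertices without generator -/
def sinksL (un : List (List Bool)) (gens : List (List Bool × List Bool)) : List (List Bool) :=
  un.filter fun e => gens.all fun g => !(g.1 == e)

/-- unit vectors in `U(z + L)` -/
def ulist (un : List (List Bool)) (gens : List (List Bool × List Bool)) (L : List (List Bool))
    (z : List Bool) : List (List Bool) :=
  un.filter fun e => gens.all fun g => !(g.1 == e) ||
    (gens.filter good).any fun g' => member L (xorV (xorV z (gvec g)) (gvec g'))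

/-- the test -/
def test (un : List (List Bool)) (gens : List (List Bool × List Bool)) (L : List (List Bool))
    (z : List Bool) : Bool :=
  member (L ++ ulist un gens L z) z

/-- one round -/
def step (un : List (List Bool)) (gens : List (List Bool × List Bool))
    (L : List (List Bool)) : List (List Bool) :=
  sinksL un gens ++ (cands gens).filter (test un gens L)

/-- the generators of the space of P-positions -/
def psub (un : List (List Bool)) (gens : List (List Bool × List Bool)) : List (List Bool) :=
  ([] :: cands gens).foldl (fun L _ => step un gens L) []

/-- is the position in N -/
def isNpos (gens : List (List Bool × List Bool)) (L : List (List Bool)) (a : List Bool) : Bool :=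
  gens.any fun g => meets g.1 a && member L (xorV a (gvec g))

/-- winning moves -/
def winMoves (gens : List (List Bool × List Bool)) (L : List (List Bool)) (a : List Bool) :
    List (List Bool × List Bool) :=
  gens.filter fun g => meets g.1 a && member L (xorV a (gvec g))

/-- drawing moves -/
def drawMoves (gens : List (List Bool × List Bool)) (L : List (List Bool)) (a : List Bool) :
    List (List Bool × List Bool) :=
  gens.filter fun g => meets g.1 a && !(isNpos gens L (xorV a (gvec g)))

/-- the answer, from the generators and the space of P-positions -/
def answer (gens : List (List Bool × List Bool)) (L : List (List Bool)) (a : List Bool) :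
    (Bool × Bool) × (List Bool × List Bool) :=
  ((member L a, isNpos gens L a), ((winMoves gens L a ++ drawMoves gens L a).head?.getD ([], [])))

/-- the algorithm for `(k+1)`-annihilation -/
def solve (sinks : Bool) (k : ℕ) (inp : List (List Bool) × List Bool) :
    (Bool × Bool) × (List Bool × List Bool) :=
  answer (genList sinks k inp.1) (psub (units inp.1) (genList sinks k inp.1)) inp.2

end Pool.Agent.H656R2.Annih.Algo
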