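import Pool.Agent.H656R2.Annih.Algo

namespace Pool.Agent.H656R2.Annih.Algo

/-- bit as an element of `ZMod 2` -/
def bitZ (b : Bool) : ZMod 2 := if b then 1 else 0

@[simp] lemma bitZ_true : bitZ true = 1 := rfl
@[simp] lemma bitZ_false : bitZ false = 0 := rfl

lemma bitZ_xor (a b : Bool) : bitZ (xor a b) = bitZ a + bitZ b := by
  cases a <;> cases b <;> decide

lemma bitZ_inj {a b : Bool} (h : bitZ a = bitZ b) : a = b := by
  revert h; cases a <;> cases b <;> decide

lemma bitZ_eq_zero {a : Bool} : bitZ a = 0 ↔ a = false := by
  cases a <;> decide

lemma bitZ_eq_one {a : Bool} : bitZ a = 1 ↔ a = true := by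
  cases a <;> decide

/-- vector over `ZMod 2` of a list of bits -/
def toM (n : ℕ) (l : List Bool) : Fin n → ZMod 2 := fun i => bitZ (l.getD i false)

lemma getD_zipWith {f : Bool → Bool → Bool} (hf : f false false = false) :
    ∀ (a b : List Bool) (i : ℕ), a.length = b.length →
      (List.zipWith f a b).getD i false = f (a.getD i false) (b.getD i false) := by
  intro a
  induction a with
  | nil =>
    intro b i h
    cases b with
    | nil => simp [hf]
    | cons y b => simp at h
  | cons x a ih =>
    intro b i h
    cases b with
    | nil => simp at h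
    | cons y b =>
      cases i with
      | zero => simp
      | succ i =>
        simp only [List.zipWith_cons_cons, List.getD_cons_succ]
        exact ih b i (by simpa using h)

lemma length_xorV {a b : List Bool} {n : ℕ} (ha : a.length = n) (hb : b.length = n) :
    (xorV a b).length = n := by
  simp [xorV, ha, hb]

lemma toM_xorV {a b : List Bool} {n : ℕ} (ha : a.length = n) (hb : b.length = n) :
    toM n (xorV a b) = toM n a + toM n b := by
  funext i
  simp only [toM, Pi.add_apply, xorV]
  rw [getD_zipWith rfl a b i (by rw [ha, hb]), bitZ_xor]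

lemma toM_inj {a b : List Bool} {n : ℕ} (ha : a.length = n) (hb : b.length = n)
    (h : toM n a = toM n b) : a = b := by
  apply List.ext_getElem (by rw [ha, hb])
  intro i h1 h2
  have := congrFun h ⟨i, by omega⟩
  simp only [toM] at this
  have := bitZ_inj this
  rwa [List.getD_eq_getElem _ _ h1, List.getD_eq_getElem _ _ h2] at this

lemma isZero_iff {a : List Bool} {n : ℕ} (ha : a.length = n) :
    isZero a = true ↔ toM n a = 0 := by
  simp only [isZero, Bool.not_eq_true', List.any_eq_false, id]
  constructor
  · intro h
    funext i
    simp only [toM, Pi.zero_apply, bitZ_eq_zero]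
    rw [List.getD_eq_getElem _ _ (by omega)]
    have := h _ (List.getElem_mem (l := a) (by omega : (i : ℕ) < a.length))
    simpa using this
  · intro h x hx
    obtain ⟨i, hi, rfl⟩ := List.mem_iff_getElem.mp hx
    have := congrFun h ⟨i, by omega⟩
    simp only [toM, Pi.zero_apply, bitZ_eq_zero] at this
    rw [List.getD_eq_getElem _ _ hi] at this
    simp [this]

lemma pivotBit_eq : ∀ (b v : List Bool), b.length = v.length →
    pivotBit b v = v.getD (b.findIdx id) false := by
  intro b
  induction b with
  | nil =>
    intro v h
    have : v = [] := by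
      cases v with
      | nil => rfl
      | cons y v => simp at h
    subst this
    simp [pivotBit]
  | cons x b ih =>
    intro v h
    cases v with
    | nil => simp at h
    | cons y v =>
      have h' : b.length = v.length := by simpa using h
      have h2 := ih v h'
      simp only [pivotBit, List.zip_cons_cons, List.foldr_cons] at h2 ⊢
      cases x
      · simp only [Bool.false_eq_true, if_false, List.findIdx_cons, id, cond_false,
          List.getD_cons_succ]
        exact h2
      · simp [List.findIdx_cons]

/-- the functional of a basis vector -/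
def phi (n : ℕ) (b : List Bool) : (Fin n → ZMod 2) →+ ZMod 2 where
  toFun m := if h : b.findIdx id < n then m ⟨b.findIdx id, h⟩ else 0
  map_zero' := by simp
  map_add' m m' := by
    by_cases h : b.findIdx id < n
    · simp [h]
    · simp [h]

lemma phi_toM {n : ℕ} {b v : List Bool} (hb : b.length = n) (hv : v.length = n) :
    phi n b (toM n v) = bitZ (pivotBit b v) := by
  rw [pivotBit_eq b v (by rw [hb, hv])]
  simp only [phi, AddMonoidHom.coe_mk, ZeroHom.coe_mk, toM]
  by_cases h : b.findIdx id < n
  · rw [dif_pos h]
  · rw [dif_neg h, List.getD_eq_default _ _ (by omega)]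
    rfl

lemma pivotBit_self {b : List Bool} : pivotBit b b = b.any id := by
  rw [pivotBit_eq b b rfl]
  induction b with
  | nil => rfl
  | cons x b ih =>
    cases x
    · simp only [List.findIdx_cons, id, cond_false, List.getD_cons_succ, List.any_cons,
        Bool.false_or]
      exact ih
    · simp [List.findIdx_cons]

/-- span of a list of vectors -/
def spanL (n : ℕ) (gs : List (List Bool)) : AddSubgroup (Fin n → ZMod 2) :=
  AddSubgroup.closure {m | ∃ g ∈ gs, m = toM n g}

lemma mem_spanL_of_mem {n : ℕ} {gs : List (List Bool)} {g : List Bool} (h : g ∈ gs) :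
    toM n g ∈ spanL n gs := AddSubgroup.subset_closure ⟨g, h, rfl⟩

lemma spanL_mono {n : ℕ} {gs gs' : List (List Bool)} (h : ∀ g ∈ gs, toM n g ∈ spanL n gs') :
    spanL n gs ≤ spanL n gs' := by
  rw [spanL, AddSubgroup.closure_le]
  rintro _ ⟨g, hg, rfl⟩
  exact h g hg

lemma hM2 {n : ℕ} (a : Fin n → ZMod 2) : a + a = 0 := by
  funext i
  simp only [Pi.add_apply, Pi.zero_apply]
  generalize a i = x
  revert x; decide

lemma mem_spanL_cons {n : ℕ} {b : List Bool} {gs : List (List Bool)} {m : Fin n → ZMod 2}
    (h : m ∈ spanL n (b :: gs)) : m ∈ spanL n gs ∨ m + toM n b ∈ spanL n gs := by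
  rw [spanL] at h
  induction h using AddSubgroup.closure_induction with
  | mem x hx =>
    obtain ⟨g, hg, rfl⟩ := hx
    rcases List.mem_cons.mp hg with rfl | hg
    · right
      rw [hM2]
      exact (spanL n gs).zero_mem
    · left
      exact mem_spanL_of_mem hg
  | zero => left; exact (spanL n gs).zero_mem
  | add x y _ _ hx hy =>
    rcases hx with hx | hx <;> rcases hy with hy | hy
    · left; exact (spanL n gs).add_mem hx hy
    · right
      have : x + y + toM n b = x + (y + toM n b) := by abel
      rw [this]
      exact (spanL n gs).add_mem hx hy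
    · right
      have : x + y + toM n b = (x + toM n b) + y := by abel
      rw [this]
      exact (spanL n gs).add_mem hx hy
    · left
      have : x + y = (x + toM n b) + (y + toM n b) := by
        have h2 := hM2 (toM n b)
        calc x + y = x + y + (toM n b + toM n b) := by rw [h2, add_zero]
          _ = _ := by abel
      rw [this]
      exact (spanL n gs).add_mem hx hy
  | neg x _ hx =>
    have : -x = x := by
      rw [neg_eq_iff_add_eq_zero]; exact hM2 x
    rwa [this]

/-- echelon lists -/
def Ech (n : ℕ) (B : List (List Bool)) : Prop :=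
  (∀ b ∈ B, b.length = n) ∧ B.Pairwise (fun b b' => pivotBit b b' = false) ∧
    ∀ b ∈ B, pivotBit b b = true

lemma length_reduceStep {n : ℕ} {v b : List Bool} (hv : v.length = n) (hb : b.length = n) :
    (reduceStep v b).length = n := by
  unfold reduceStep
  split
  · exact length_xorV hv hb
  · exact hv

lemma toM_reduceStep {n : ℕ} {v b : List Bool} (hv : v.length = n) (hb : b.length = n) :
    toM n (reduceStep v b) = toM n v ∨ toM n (reduceStep v b) = toM n v + toM n b := by
  unfold reduceStep
  split
  · right; exact toM_xorV hv hb
  · left; rfl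

lemma reduce_cons (b : List Bool) (B : List (List Bool)) (v : List Bool) :
    reduce (b :: B) v = reduce B (reduceStep v b) := rfl

lemma length_reduce {n : ℕ} : ∀ (B : List (List Bool)) (v : List Bool),
    (∀ b ∈ B, b.length = n) → v.length = n → (reduce B v).length = n := by
  intro B
  induction B with
  | nil => intro v _ hv; exact hv
  | cons b B ih =>
    intro v hB hv
    rw [reduce_cons]
    exact ih _ (fun b' hb' => hB b' (List.mem_cons_of_mem _ hb'))
      (length_reduceStep hv (hB b (by simp)))

lemma toM_reduce {n : ℕ} : ∀ (B : List (List Bool)) (v : List Bool),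
    (∀ b ∈ B, b.length = n) → v.length = n →
    toM n (reduce B v) + toM n v ∈ spanL n B := by
  intro B
  induction B with
  | nil =>
    intro v _ _
    change toM n v + toM n v ∈ _
    rw [hM2]
    exact (spanL n []).zero_mem
  | cons b B ih =>
    intro v hB hv
    rw [reduce_cons]
    have hb := hB b (by simp)
    have h1 := ih (reduceStep v b) (fun b' hb' => hB b' (List.mem_cons_of_mem _ hb'))
      (length_reduceStep hv hb)
    have h2 : spanL n B ≤ spanL n (b :: B) :=
      spanL_mono fun g hg => mem_spanL_of_mem (List.mem_cons_of_mem _ hg)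
    have h3 := h2 h1
    rcases toM_reduceStep hv hb with h | h
    · rwa [h] at h3
    · rw [h] at h3
      have h4 : toM n b ∈ spanL n (b :: B) := mem_spanL_of_mem (by simp)
      have := (spanL n (b :: B)).add_mem h3 h4
      have h5 : toM n (reduce B (reduceStep v b)) + (toM n v + toM n b) + toM n b
          = toM n (reduce B (reduceStep v b)) + toM n v := by
        have h6 := hM2 (toM n b)
        calc _ = toM n (reduce B (reduceStep v b)) + toM n v + (toM n b + toM n b) := by abel
          _ = _ := by rw [h6, add_zero]
      rwa [h5] at this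

lemma pivotBit_xorV {n : ℕ} {b v w : List Bool} (hb : b.length = n) (hv : v.length = n)
    (hw : w.length = n) : pivotBit b (xorV v w) = xor (pivotBit b v) (pivotBit b w) := by
  apply bitZ_inj
  rw [bitZ_xor, ← phi_toM hb hv, ← phi_toM hb hw, ← phi_toM hb (length_xorV hv hw),
    toM_xorV hv hw, map_add]

lemma pivot_reduce {n : ℕ} {b : List Bool} (hb : b.length = n) :
    ∀ (B : List (List Bool)) (v : List Bool), (∀ b' ∈ B, b'.length = n) → v.length = n →
    (∀ b' ∈ B, pivotBit b b' = false) → pivotBit b v = false →
    pivotBit b (reduce B v) = false := by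
  intro B
  induction B with
  | nil => intro v _ _ _ h; exact h
  | cons c B ih =>
    intro v hB hv hp h
    rw [reduce_cons]
    have hc := hB c (by simp)
    refine ih _ (fun b' hb' => hB b' (List.mem_cons_of_mem _ hb')) (length_reduceStep hv hc)
      (fun b' hb' => hp b' (List.mem_cons_of_mem _ hb')) ?_
    unfold reduceStep
    split
    · rw [pivotBit_xorV hb hv hc, h, hp c (by simp)]
      rfl
    · exact h

lemma pivots_reduce {n : ℕ} : ∀ (B : List (List Bool)) (v : List Bool), Ech n B →
    v.length = n → ∀ b ∈ B, pivotBit b (reduce B v) = false := by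
  intro B
  induction B with
  | nil => intro v _ _ b hb; simp at hb
  | cons c B ih =>
    intro v hE hv b hb
    obtain ⟨hlen, hpw, hself⟩ := hE
    rw [List.pairwise_cons] at hpw
    have hc := hlen c (by simp)
    rw [reduce_cons]
    rcases List.mem_cons.mp hb with rfl | hb'
    · refine pivot_reduce hc B _ (fun b' hb' => hlen b' (List.mem_cons_of_mem _ hb'))
        (length_reduceStep hv hc) hpw.1 ?_
      unfold reduceStep
      split
      · rename_i h
        rw [pivotBit_xorV hc hv hc, h, hself b (by simp)]
        rfl
      · rename_i h
        simpa using h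
    · exact ih _ ⟨fun b' hb' => hlen b' (List.mem_cons_of_mem _ hb'), hpw.2,
        fun b' hb' => hself b' (List.mem_cons_of_mem _ hb')⟩ (length_reduceStep hv hc) b hb'

lemma phi_span_zero {n : ℕ} {b : List Bool} {B : List (List Bool)} (hb : b.length = n)
    (hB : ∀ b' ∈ B, b'.length = n) (hp : ∀ b' ∈ B, pivotBit b b' = false)
    {m : Fin n → ZMod 2} (hm : m ∈ spanL n B) : phi n b m = 0 := by
  rw [spanL] at hm
  induction hm using AddSubgroup.closure_induction with
  | mem x hx =>
    obtain ⟨g, hg, rfl⟩ := hx
    rw [phi_toM hb (hB g hg), hp g hg]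
    rfl
  | zero => exact map_zero _
  | add x y _ _ hx hy => rw [map_add, hx, hy, add_zero]
  | neg x _ hx => rw [map_neg, hx, neg_zero]

lemma zero_of_pivots {n : ℕ} : ∀ (B : List (List Bool)), Ech n B →
    ∀ m : Fin n → ZMod 2, m ∈ spanL n B → (∀ b ∈ B, phi n b m = 0) → m = 0 := by
  intro B
  induction B with
  | nil =>
    intro _ m hm _
    have : spanL n [] = ⊥ := by
      rw [spanL, AddSubgroup.closure_eq_bot_iff]
      rintro x ⟨g, hg, _⟩
      simp at hg
    rw [this] at hm
    exact hm
  | cons c B ih =>
    intro hE m hm hp
    obtain ⟨hlen, hpw, hself⟩ := hE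
    rw [List.pairwise_cons] at hpw
    have hc := hlen c (by simp)
    have hB' : ∀ b' ∈ B, b'.length = n := fun b' hb' => hlen b' (List.mem_cons_of_mem _ hb')
    have hE' : Ech n B := ⟨hB', hpw.2, fun b' hb' => hself b' (List.mem_cons_of_mem _ hb')⟩
    have hmB : m ∈ spanL n B := by
      rcases mem_spanL_cons hm with h | h
      · exact h
      · exfalso
        have h1 := phi_span_zero hc hB' hpw.1 h
        rw [map_add, hp c (by simp), zero_add, phi_toM hc hc, hself c (by simp)] at h1
        exact absurd h1 (by decide)
    exact ih hE' m hmB fun b hb => hp b (List.mem_cons_of_mem _ hb)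

lemma ech_insert {n : ℕ} {B : List (List Bool)} {v : List Bool} (hE : Ech n B)
    (hv : v.length = n) : Ech n (insertV B v) := by
  unfold insertV
  split
  · exact hE
  · rename_i hz
    obtain ⟨hlen, hpw, hself⟩ := hE
    have hr : (reduce B v).length = n := length_reduce B v hlen hv
    refine ⟨?_, ?_, ?_⟩
    · intro b hb
      rcases List.mem_append.mp hb with h | h
      · exact hlen b h
      · rw [List.mem_singleton] at h
        rw [h]; exact hr
    · rw [List.pairwise_append]
      refine ⟨hpw, by simp, ?_⟩
      intro b hb c hc
      rw [List.mem_singleton] at hc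
      rw [hc]
      exact pivots_reduce B v ⟨hlen, hpw, hself⟩ hv b hb
    · intro b hb
      rcases List.mem_append.mp hb with h | h
      · exact hself b h
      · rw [List.mem_singleton] at h
        rw [h, pivotBit_self]
        simpa [isZero] using hz

lemma span_insert {n : ℕ} {B : List (List Bool)} {v : List Bool} (hE : Ech n B)
    (hv : v.length = n) : spanL n (insertV B v) = spanL n (v :: B) := by
  have h0 := toM_reduce B v hE.1 hv
  have hmono : spanL n B ≤ spanL n (v :: B) :=
    spanL_mono fun g hg => mem_spanL_of_mem (List.mem_cons_of_mem _ hg)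
  have hvmem : toM n v ∈ spanL n (v :: B) := mem_spanL_of_mem (by simp)
  apply le_antisymm
  · apply spanL_mono
    intro g hg
    unfold insertV at hg
    split at hg
    · exact mem_spanL_of_mem (List.mem_cons_of_mem _ hg)
    · rcases List.mem_append.mp hg with h | h
      · exact mem_spanL_of_mem (List.mem_cons_of_mem _ h)
      · rw [List.mem_singleton] at h
        rw [h]
        have h1 := (spanL n (v :: B)).add_mem (hmono h0) hvmem
        rwa [add_assoc, hM2, add_zero] at h1
  · apply spanL_mono
    intro g hg
    have hBle : spanL n B ≤ spanL n (insertV B v) := by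
      apply spanL_mono
      intro g hg
      apply mem_spanL_of_mem
      unfold insertV
      split
      · exact hg
      · exact List.mem_append_left _ hg
    rcases List.mem_cons.mp hg with rfl | hg
    · have h1 := hBle h0
      by_cases hz : isZero (reduce B g) = true
      · rw [(isZero_iff (length_reduce B g hE.1 hv)).mp hz, zero_add] at h1
        exact h1
      · have h2 : toM n (reduce B g) ∈ spanL n (insertV B g) := by
          apply mem_spanL_of_mem
          unfold insertV
          rw [if_neg hz]
          simp
        have h3 := (spanL n (insertV B g)).add_mem h2 h1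
        rwa [← add_assoc, hM2, zero_add] at h3
    · exact hBle (mem_spanL_of_mem hg)

lemma echelon_aux {n : ℕ} : ∀ (gs B : List (List Bool)), (∀ g ∈ gs, g.length = n) → Ech n B →
    Ech n (gs.foldl insertV B) ∧ spanL n (gs.foldl insertV B) = spanL n (gs ++ B) := by
  intro gs
  induction gs with
  | nil => intro B _ hE; exact ⟨hE, rfl⟩
  | cons g gs ih =>
    intro B hgs hE
    have hg := hgs g (by simp)
    obtain ⟨h1, h2⟩ := ih (insertV B g) (fun g' hg' => hgs g' (List.mem_cons_of_mem _ hg'))
      (ech_insert hE hg)
    refine ⟨h1, ?_⟩
    rw [List.foldl_cons, h2]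
    have h3 := span_insert hE hg
    apply le_antisymm
    · apply spanL_mono
      intro x hx
      rcases List.mem_append.mp hx with h | h
      · exact mem_spanL_of_mem (by simp [h])
      · have h4 : toM n x ∈ spanL n (insertV B g) := mem_spanL_of_mem h
        rw [h3] at h4
        refine (spanL_mono ?_) h4
        intro y hy
        apply mem_spanL_of_mem
        rcases List.mem_cons.mp hy with rfl | hy
        · simp
        · simp [hy]
    · apply spanL_mono
      intro x hx
      have hle : spanL n (insertV B g) ≤ spanL n (gs ++ insertV B g) :=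
        spanL_mono fun y hy => mem_spanL_of_mem (List.mem_append_right _ hy)
      rcases List.mem_append.mp hx with h | h
      · rcases List.mem_cons.mp h with rfl | h
        · apply hle
          rw [h3]
          exact mem_spanL_of_mem (by simp)
        · exact mem_spanL_of_mem (List.mem_append_left _ h)
      · apply hle
        rw [h3]
        exact mem_spanL_of_mem (by simp [h])

/-- correctness of the membership test -/
theorem member_iff {n : ℕ} {gs : List (List Bool)} {v : List Bool}
    (hgs : ∀ g ∈ gs, g.length = n) (hv : v.length = n) :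
    member gs v = true ↔ toM n v ∈ spanL n gs := by
  have hE0 : Ech n [] := ⟨by simp, by simp, by simp⟩
  obtain ⟨hE, hspan⟩ := echelon_aux gs [] hgs hE0
  rw [List.append_nil] at hspan
  change isZero (reduce (gs.foldl insertV []) v) = true ↔ _
  rw [isZero_iff (length_reduce _ v hE.1 hv), ← hspan]
  have h0 := toM_reduce _ v hE.1 hv
  constructor
  · intro h
    rw [h, zero_add] at h0
    exact h0
  · intro h
    have h1 : toM n (reduce (gs.foldl insertV []) v) ∈ spanL n (gs.foldl insertV []) := by
      have := (spanL n (gs.foldl insertV [])).add_mem h0 h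
      rwa [add_assoc, hM2, add_zero] at this
    apply zero_of_pivots _ hE _ h1
    intro b hb
    rw [phi_toM (hE.1 b hb) (length_reduce _ v hE.1 hv), pivots_reduce _ v hE hv b hb]
    rfl

end Pool.Agent.H656R2.Annih.Algo
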