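import Mathlib

/-!
# Linear games over GF(2)

Abstract theory used for `k`-annihilation games.
-/

namespace Pool.Agent.H656R2.Annih

/-- A linear game: positions are the elements of `M`, `occ u a = 1` means that vertex `u`
is occupied in `a`, and every generator `(u, x)` gives the move `a ↦ a + x`, allowed
if `u` is occupied. -/
structure LinGame (V M : Type*) [AddCommGroup M] where
  occ : V → M →+ ZMod 2
  gens : Set (V × M)

variable {V M : Type*} [AddCommGroup M] (G : LinGame V M)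

namespace LinGame

/-- moves of the linear game -/
def Move (a b : M) : Prop := ∃ g ∈ G.gens, G.occ g.1 a = 1 ∧ b = a + g.2

/-- the previous player can force a win with at most `i` further moves of his own -/
def PR : ℕ → M → Prop
  | 0, a => ∀ b, ¬ G.Move a b
  | i + 1, a => ∀ b, G.Move a b → ∃ c, G.Move b c ∧ PR i c

lemma PR_succ {i : ℕ} {a : M} (h : G.PR i a) : G.PR (i + 1) a := by
  induction i generalizing a with
  | zero => intro b hb; exact absurd hb (h b)
  | succ i ih =>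
    intro b hb
    obtain ⟨c, hc, hc'⟩ := h b hb
    exact ⟨c, hc, ih hc'⟩

lemma PR_mono {i j : ℕ} (hij : i ≤ j) {a : M} (h : G.PR i a) : G.PR j a := by
  induction j, hij using Nat.le_induction with
  | base => exact h
  | succ j _ ih => exact G.PR_succ ih

/-- P-positions -/
def P (a : M) : Prop := ∃ i, G.PR i a

/-- if `a` is a P-position of rank at most `i` and `b` a follower of `a`, then `b` has a follower
of smaller rank -/
lemma PR_reply {i : ℕ} {a b : M} (h : G.PR i a) (hb : G.Move a b) :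
    ∃ c, G.Move b c ∧ ∃ m, m + 1 ≤ i ∧ G.PR m c := by
  cases i with
  | zero => exact absurd hb (h b)
  | succ i =>
    obtain ⟨c, hc, hc'⟩ := h b hb
    exact ⟨c, hc, i, le_rfl, hc'⟩

lemma zmod2_cases (x : ZMod 2) : x = 0 ∨ x = 1 := by
  revert x; decide

lemma move_add {a b c : M} (h : G.Move (a + b) c) :
    (∃ a', G.Move a a' ∧ c = a' + b) ∨ (∃ b', G.Move b b' ∧ c = a + b') := by
  obtain ⟨g, hg, hocc, rfl⟩ := h
  rw [map_add] at hocc
  rcases zmod2_cases (G.occ g.1 a) with ha | ha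
  · right
    rw [ha, zero_add] at hocc
    exact ⟨b + g.2, ⟨g, hg, hocc, rfl⟩, by abel⟩
  · left
    exact ⟨a + g.2, ⟨g, hg, ha, rfl⟩, by abel⟩

lemma sum_aux (hM : ∀ a : M, a + a = 0) (N : ℕ) :
    (∀ i j a b, i + j ≤ N → G.PR i a → G.PR j b → G.PR (i + j) (a + b)) ∧
    (∀ i j a b a', i + j ≤ N → G.PR i a → G.PR j b → G.Move a a' →
      ∃ c, G.Move (a' + b) c ∧ ∃ m, m + 1 ≤ i + j ∧ G.PR m c) := by
  induction N with
  | zero =>
    constructor
    · intro i j a b hij ha hb
      have hi : i = 0 := by omega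
      have hj : j = 0 := by omega
      subst hi hj
      intro c hc
      rcases G.move_add hc with ⟨a', h, _⟩ | ⟨b', h, _⟩
      · exact ha _ h
      · exact hb _ h
    · intro i j a b a' hij ha hb h
      have hi : i = 0 := by omega
      subst hi
      exact absurd h (ha _)
  | succ N ih =>
    have hR : ∀ i j a b a', i + j ≤ N + 1 → G.PR i a → G.PR j b → G.Move a a' →
        ∃ c, G.Move (a' + b) c ∧ ∃ m, m + 1 ≤ i + j ∧ G.PR m c := by
      intro i j a b a' hij ha hb h
      obtain ⟨a'', ha'', m, hm, hPR⟩ := G.PR_reply ha h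
      obtain ⟨g, hg, hocc, rfl⟩ := ha''
      rcases zmod2_cases (G.occ g.1 b) with hb0 | hb1
      · refine ⟨a' + g.2 + b, ⟨g, hg, ?_, by abel⟩, m + j, by omega, ?_⟩
        · rw [map_add, hocc, hb0, add_zero]
        · exact ih.1 m j _ _ (by omega) hPR hb
      · obtain ⟨c, hc, m', hm', hPR'⟩ := ih.2 j m b (a' + g.2) (b + g.2) (by omega) hb hPR
          ⟨g, hg, hb1, rfl⟩
        refine ⟨c, ?_, m', by omega, hPR'⟩
        have : b + g.2 + (a' + g.2) = a' + b := by
          have h2 := hM g.2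
          calc b + g.2 + (a' + g.2) = (a' + b) + (g.2 + g.2) := by abel
            _ = a' + b := by rw [h2, add_zero]
        rwa [this] at hc
    refine ⟨?_, hR⟩
    intro i j a b hij ha hb
    by_cases h0 : i + j = 0
    · exact G.PR_mono (by omega) (ih.1 i j a b (by omega) ha hb)
    · obtain ⟨s, hs⟩ : ∃ s, i + j = s + 1 := ⟨i + j - 1, by omega⟩
      rw [hs]
      intro c hc
      rcases G.move_add hc with ⟨a', h, rfl⟩ | ⟨b', h, rfl⟩
      · obtain ⟨d, hd, m, hm, hPR⟩ := hR i j a b a' hij ha hb h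
        exact ⟨d, hd, G.PR_mono (by omega) hPR⟩
      · obtain ⟨d, hd, m, hm, hPR⟩ := hR j i b a b' (by omega) hb ha h
        rw [add_comm a b']
        exact ⟨d, hd, G.PR_mono (by omega) hPR⟩

lemma P_add (hM : ∀ a : M, a + a = 0) {a b : M} (ha : G.P a) (hb : G.P b) : G.P (a + b) := by
  obtain ⟨i, hi⟩ := ha
  obtain ⟨j, hj⟩ := hb
  exact ⟨i + j, (G.sum_aux hM (i + j)).1 i j a b le_rfl hi hj⟩

lemma P_zero : G.P 0 := by
  refine ⟨0, ?_⟩
  rintro b ⟨g, _, hocc, _⟩
  rw [map_zero] at hocc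
  exact absurd hocc (by decide)

/-- `b` has a follower in `P` iff `b + x ∈ P` for some generator `(u, x)` with `x_u = 1`. -/
lemma follower_iff (hM : ∀ a : M, a + a = 0) (b : M) :
    (∃ c, G.Move b c ∧ G.P c) ↔ ∃ g ∈ G.gens, G.occ g.1 g.2 = 1 ∧ G.P (b + g.2) := by
  constructor
  · intro h
    have h' : ∃ m c, G.Move b c ∧ G.PR m c := by
      obtain ⟨c, hc, i, hi⟩ := h
      exact ⟨i, c, hc, hi⟩
    classical
    obtain ⟨c, hc, hPR⟩ := Nat.find_spec h'
    have hmin := fun m (hm : m < Nat.find h') => Nat.find_min h' hm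
    obtain ⟨g, hg, hocc, rfl⟩ := hc
    rcases zmod2_cases (G.occ g.1 g.2) with h0 | h1
    · exfalso
      have hback : G.Move (b + g.2) b := by
        refine ⟨g, hg, ?_, ?_⟩
        · rw [map_add, hocc, h0, add_zero]
        · rw [add_assoc, hM, add_zero]
      obtain ⟨c', hc', m, hm, hPR'⟩ := G.PR_reply hPR hback
      exact hmin m (by omega) ⟨c', hc', hPR'⟩
    · exact ⟨g, hg, h1, _, hPR⟩
  · rintro ⟨g, hg, h1, i, hP⟩
    rcases zmod2_cases (G.occ g.1 b) with hb | hb
    · have hback : G.Move (b + g.2) b := by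
        refine ⟨g, hg, ?_, ?_⟩
        · rw [map_add, hb, h1, zero_add]
        · rw [add_assoc, hM, add_zero]
      obtain ⟨c', hc', m, hm, hPR'⟩ := G.PR_reply hP hback
      exact ⟨c', hc', m, hPR'⟩
    · exact ⟨b + g.2, ⟨g, hg, hb, rfl⟩, i, hP⟩

/-- with finitely many generators: if each follower of `a` has a follower in `P`, then `a ∈ P` -/
lemma P_of_forall (hfin : G.gens.Finite) {a : M} (h : ∀ b, G.Move a b → ∃ c, G.Move b c ∧ G.P c) :
    G.P a := by
  classical
  have h' : ∀ g : V × M, ∃ m, g ∈ G.gens → G.occ g.1 a = 1 → ∃ c, G.Move (a + g.2) c ∧ G.PR m c := by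
    intro g
    by_cases hg : g ∈ G.gens ∧ G.occ g.1 a = 1
    · obtain ⟨c, hc, i, hi⟩ := h (a + g.2) ⟨g, hg.1, hg.2, rfl⟩
      exact ⟨i, fun _ _ => ⟨c, hc, hi⟩⟩
    · exact ⟨0, fun h1 h2 => absurd ⟨h1, h2⟩ hg⟩
  choose m hm using h'
  obtain ⟨B, hB⟩ := (hfin.image m).bddAbove
  refine ⟨B + 1, ?_⟩
  rintro b ⟨g, hg, hocc, rfl⟩
  obtain ⟨c, hc, hPR⟩ := hm g hg hocc
  exact ⟨c, hc, G.PR_mono (hB ⟨g, hg, rfl⟩) hPR⟩

lemma P_iff (hfin : G.gens.Finite) {a : M} :
    G.P a ↔ ∀ b, G.Move a b → ∃ c, G.Move b c ∧ G.P c := by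
  refine ⟨?_, G.P_of_forall hfin⟩
  rintro ⟨i, hi⟩ b hb
  obtain ⟨c, hc, m, _, hPR⟩ := G.PR_reply hi hb
  exact ⟨c, hc, m, hPR⟩

/-- P-positions form a subgroup -/
def PSub (hM : ∀ a : M, a + a = 0) : AddSubgroup M where
  carrier := {a | G.P a}
  add_mem' := G.P_add hM
  zero_mem' := G.P_zero
  neg_mem' := by
    intro a ha
    have : -a = a := by
      rw [neg_eq_iff_add_eq_zero]; exact hM a
    simpa [this] using ha

/-- the test on the coset `z + L` -/
def Test (L : Set M) (z : M) : Prop :=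
  ∃ a, a + z ∈ L ∧ ∀ g ∈ G.gens, G.occ g.1 a = 1 →
    ∃ g' ∈ G.gens, G.occ g'.1 g'.2 = 1 ∧ z + g.2 + g'.2 ∈ L

lemma test_mono {L L' : Set M} (h : L ⊆ L') {z : M} (hz : G.Test L z) : G.Test L' z := by
  obtain ⟨a, ha, hall⟩ := hz
  refine ⟨a, h ha, fun g hg hocc => ?_⟩
  obtain ⟨g', hg', h1, h2⟩ := hall g hg hocc
  exact ⟨g', hg', h1, h h2⟩

lemma test_sound (hM : ∀ a : M, a + a = 0) (hfin : G.gens.Finite) (L : AddSubgroup M)
    (hL : ∀ a ∈ L, G.P a) {z : M} (hz : G.Test L z) : G.P z := by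
  obtain ⟨a, ha, hall⟩ := hz
  have hPa : G.P a := by
    apply G.P_of_forall hfin
    rintro b ⟨g, hg, hocc, rfl⟩
    rw [G.follower_iff hM]
    obtain ⟨g', hg', h1, h2⟩ := hall g hg hocc
    refine ⟨g', hg', h1, ?_⟩
    have : a + g.2 + g'.2 = (a + z) + (z + g.2 + g'.2) := by
      have h3 := hM z
      calc a + g.2 + g'.2 = a + g.2 + g'.2 + (z + z) := by rw [h3, add_zero]
        _ = _ := by abel
    rw [this]
    exact hL _ (L.add_mem ha h2)
  have : z = a + (a + z) := by
    rw [← add_assoc, hM, zero_add]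
  rw [this]
  exact G.P_add hM hPa (hL _ ha)

lemma complete (hM : ∀ a : M, a + a = 0) (L : AddSubgroup M)
    (hT : ∀ a, (∀ b, ¬ G.Move a b) → a ∈ L)
    (hclosed : ∀ g ∈ G.gens, ∀ g' ∈ G.gens, G.occ g'.1 g'.2 = 1 →
      G.Test L (g.2 + g'.2) → g.2 + g'.2 ∈ L) :
    ∀ i a, G.PR i a → a ∈ L := by
  intro i
  induction i using Nat.strong_induction_on with
  | _ i ih =>
    intro a ha
    -- every follower of `a` has an answer in `L` by a generator with `x_u = 1`
    have key : ∀ g ∈ G.gens, G.occ g.1 a = 1 →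
        ∃ g' ∈ G.gens, G.occ g'.1 g'.2 = 1 ∧ a + g.2 + g'.2 ∈ L := by
      intro g hg hocc
      have hmv : G.Move a (a + g.2) := ⟨g, hg, hocc, rfl⟩
      have h' : ∃ m c, G.Move (a + g.2) c ∧ G.PR m c := by
        obtain ⟨c, hc, m, _, hPR⟩ := G.PR_reply ha hmv
        exact ⟨m, c, hc, hPR⟩
      classical
      obtain ⟨c, hc, hPR⟩ := Nat.find_spec h'
      have hmin := fun m (hm : m < Nat.find h') => Nat.find_min h' hm
      have hlt : Nat.find h' < i := by
        obtain ⟨c, hc, m, hm, hPR⟩ := G.PR_reply ha hmv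
        have := Nat.find_min' h' ⟨c, hc, hPR⟩
        omega
      obtain ⟨g', hg', hocc', rfl⟩ := hc
      rcases zmod2_cases (G.occ g'.1 g'.2) with h0 | h1
      · exfalso
        have hback : G.Move (a + g.2 + g'.2) (a + g.2) := by
          refine ⟨g', hg', ?_, ?_⟩
          · rw [map_add, hocc', h0, add_zero]
          · rw [add_assoc (a + g.2), hM, add_zero]
        obtain ⟨c', hc', m, hm, hPR'⟩ := G.PR_reply hPR hback
        exact hmin m (by omega) ⟨c', hc', hPR'⟩
      · exact ⟨g', hg', h1, ih _ hlt _ hPR⟩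
    by_cases hterm : ∀ b, ¬ G.Move a b
    · exact hT a hterm
    · push Not at hterm
      obtain ⟨b, g, hg, hocc, rfl⟩ := hterm
      obtain ⟨g', hg', h1, hmem⟩ := key g hg hocc
      have hz : a + (g.2 + g'.2) ∈ L := by rwa [← add_assoc]
      have htest : G.Test L (g.2 + g'.2) := by
        refine ⟨a, hz, fun g₁ hg₁ hocc₁ => ?_⟩
        obtain ⟨g₁', hg₁', h1', hmem'⟩ := key g₁ hg₁ hocc₁
        refine ⟨g₁', hg₁', h1', ?_⟩
        have : g.2 + g'.2 + g₁.2 + g₁'.2 = (a + (g.2 + g'.2)) + (a + g₁.2 + g₁'.2) := by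
          have h3 := hM a
          calc g.2 + g'.2 + g₁.2 + g₁'.2 = g.2 + g'.2 + g₁.2 + g₁'.2 + (a + a) := by
                rw [h3, add_zero]
            _ = _ := by abel
        rw [this]
        exact L.add_mem hz hmem'
      have hin := hclosed g hg g' hg' h1 htest
      have : a = (a + (g.2 + g'.2)) + (g.2 + g'.2) := by
        rw [add_assoc, hM, add_zero]
      rw [this]
      exact L.add_mem hz hin

end LinGame

end Pool.Agent.H656R2.Annih
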