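import Pool.Agent.H656R2.Annih.Defs
import Pool.Agent.H656R2.Annih.Theory
import Pool.Agent.H656R2.Annih.ListLin

namespace Pool.Agent.H656R2.Annih

open Algo

/-- indicator vector -/
def ind {n : ℕ} (S : Finset (Fin n)) : Fin n → ZMod 2 := fun i => if i ∈ S then 1 else 0

lemma ind_symmDiff {n : ℕ} (S T : Finset (Fin n)) : ind (symmDiff S T) = ind S + ind T := by
  funext i
  simp only [ind, Pi.add_apply, Finset.mem_symmDiff]
  by_cases h1 : i ∈ S <;> by_cases h2 : i ∈ T <;> simp [h1, h2]
  decide

lemma ind_inj {n : ℕ} {S T : Finset (Fin n)} (h : ind S = ind T) : S = T := by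
  ext i
  have := congrFun h i
  simp only [ind] at this
  by_cases h1 : i ∈ S <;> by_cases h2 : i ∈ T <;> simp_all

lemma ind_erase {n : ℕ} {S : Finset (Fin n)} {u : Fin n} (hu : u ∈ S) :
    ind (S.erase u) = ind S + ind {u} := by
  rw [← ind_symmDiff]
  congr 1
  ext i
  simp only [Finset.mem_erase, Finset.mem_symmDiff, Finset.mem_singleton]
  constructor
  · rintro ⟨h1, h2⟩; exact Or.inl ⟨h2, h1⟩
  · rintro (⟨h1, h2⟩ | ⟨h1, h2⟩)
    · exact ⟨h2, h1⟩
    · subst h1; exact absurd hu h2

lemma length_encSet {n : ℕ} (S : Finset (Fin n)) : (encSet S).length = n := by simp [encSet]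

lemma toM_encSet {n : ℕ} (S : Finset (Fin n)) : toM n (encSet S) = ind S := by
  funext i
  simp only [toM, encSet, ind]
  rw [List.getD_eq_getElem _ _ (by simp)]
  simp [bitZ]

lemma encSet_inj {n : ℕ} {S T : Finset (Fin n)} (h : encSet S = encSet T) : S = T := by
  apply ind_inj
  rw [← toM_encSet, ← toM_encSet, h]

lemma exists_encSet {n : ℕ} {a : List Bool} (ha : a.length = n) : ∃ S : Finset (Fin n),
    a = encSet S := by
  refine ⟨Finset.univ.filter fun i => a.getD i false = true, ?_⟩
  apply toM_inj ha (length_encSet _)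
  funext i
  rw [toM_encSet]
  simp only [toM, ind, bitZ, Finset.mem_filter, Finset.mem_univ, true_and]

/-- which pairs `(u, W)` are allowed -/
def Allowed (sinks : Bool) (k : ℕ) {n : ℕ} (E : Fin n → Fin n → Bool) (u : Fin n)
    (W : Finset (Fin n)) : Prop :=
  (sinks = true ∨ (followers E u).Nonempty) ∧
    W ⊆ followers E u ∧ W.card = min k (followers E u).card

/-- the linear game -/
def game (sinks : Bool) (k : ℕ) {n : ℕ} (E : Fin n → Fin n → Bool) :
    LinGame (Fin n) (Fin n → ZMod 2) where
  occ u := Pi.evalAddMonoidHom (fun _ => ZMod 2) u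
  gens := {g | ∃ W, Allowed sinks k E g.1 W ∧ g.2 = ind {g.1} + ind W}

lemma gens_finite (sinks : Bool) (k : ℕ) {n : ℕ} (E : Fin n → Fin n → Bool) :
    (game sinks k E).gens.Finite := by
  have : (game sinks k E).gens ⊆ Set.range (fun p : Fin n × Finset (Fin n) =>
      (p.1, ind {p.1} + ind p.2)) := by
    rintro ⟨u, x⟩ ⟨W, _, h⟩
    exact ⟨(u, W), by simp only at h; rw [h]⟩
  exact (Set.finite_range _).subset this

section

variable {sinks : Bool} {k : ℕ} {n : ℕ} {E : Fin n → Fin n → Bool}

lemma isMove_iff {S : Finset (Fin n)} {u : Fin n} {W S' : Finset (Fin n)} :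
    IsMove sinks k E S u W S' ↔ u ∈ S ∧ Allowed sinks k E u W ∧
      ind S' = ind S + (ind {u} + ind W) := by
  constructor
  · rintro ⟨hu, hs, h1, h2, rfl⟩
    refine ⟨hu, ⟨hs, h1, h2⟩, ?_⟩
    rw [ind_symmDiff, ind_erase hu, add_assoc]
  · rintro ⟨hu, ⟨hs, h1, h2⟩, h3⟩
    refine ⟨hu, hs, h1, h2, ?_⟩
    apply ind_inj
    rw [h3, ind_symmDiff, ind_erase hu, add_assoc]

lemma move_iff {S : Finset (Fin n)} {m : Fin n → ZMod 2} :
    (game sinks k E).Move (ind S) m ↔ ∃ S', Move sinks k E S S' ∧ m = ind S' := by
  constructor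
  · rintro ⟨⟨u, x⟩, ⟨W, hall, hx⟩, hocc, rfl⟩
    simp only at hx hocc
    have hu : u ∈ S := by
      by_contra hu
      have : ind S u = 1 := hocc
      simp [ind, hu] at this
    have hS : ind (symmDiff (S.erase u) W) = ind S + x := by
      rw [ind_symmDiff, ind_erase hu, add_assoc, hx]
    refine ⟨symmDiff (S.erase u) W, ⟨u, W, ?_⟩, hS.symm⟩
    rw [isMove_iff]
    exact ⟨hu, hall, by rw [hS, hx]⟩
  · rintro ⟨S', ⟨u, W, h⟩, rfl⟩
    rw [isMove_iff] at h
    obtain ⟨hu, hall, h3⟩ := h
    refine ⟨(u, ind {u} + ind W), ⟨W, hall, rfl⟩, ?_, h3⟩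
    change ind S u = 1
    simp [ind, hu]

lemma winWithin_iff (i : ℕ) (S : Finset (Fin n)) :
    WinWithin sinks k E (i + 1) S ↔
      ∃ S', Move sinks k E S S' ∧ (game sinks k E).PR i (ind S') := by
  induction i generalizing S with
  | zero =>
    simp only [WinWithin]
    constructor
    · rintro ⟨S', h, h2⟩
      refine ⟨S', h, ?_⟩
      intro b hb
      rw [move_iff] at hb
      obtain ⟨S'', h3, _⟩ := hb
      exact h2 S'' h3
    · rintro ⟨S', h, h2⟩
      refine ⟨S', h, fun S'' h3 => ?_⟩
      exact h2 (ind S'') (move_iff.mpr ⟨S'', h3, rfl⟩)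
  | succ i ih =>
    rw [WinWithin]
    constructor
    · rintro ⟨S', h, h2⟩
      refine ⟨S', h, ?_⟩
      intro b hb
      rw [move_iff] at hb
      obtain ⟨S'', h3, rfl⟩ := hb
      obtain ⟨S''', h4, h5⟩ := (ih S'').mp (h2 S'' h3)
      exact ⟨ind S''', move_iff.mpr ⟨S''', h4, rfl⟩, h5⟩
    · rintro ⟨S', h, h2⟩
      refine ⟨S', h, fun S'' h3 => ?_⟩
      rw [ih]
      obtain ⟨c, hc, hPR⟩ := h2 (ind S'') (move_iff.mpr ⟨S'', h3, rfl⟩)
      rw [move_iff] at hc
      obtain ⟨S''', h4, rfl⟩ := hc
      exact ⟨S''', h4, hPR⟩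

lemma isN_iff {S : Finset (Fin n)} :
    IsN sinks k E S ↔ ∃ S', Move sinks k E S S' ∧ (game sinks k E).P (ind S') := by
  constructor
  · rintro ⟨i, hi⟩
    cases i with
    | zero => exact absurd hi (by simp [WinWithin])
    | succ i =>
      obtain ⟨S', h, h2⟩ := (winWithin_iff i S).mp hi
      exact ⟨S', h, i, h2⟩
  · rintro ⟨S', h, i, h2⟩
    exact ⟨i + 1, (winWithin_iff i S).mpr ⟨S', h, h2⟩⟩

lemma isN_iff' {S : Finset (Fin n)} :
    IsN sinks k E S ↔ ∃ c, (game sinks k E).Move (ind S) c ∧ (game sinks k E).P c := by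
  rw [isN_iff]
  constructor
  · rintro ⟨S', h, hP⟩
    exact ⟨ind S', move_iff.mpr ⟨S', h, rfl⟩, hP⟩
  · rintro ⟨c, hc, hP⟩
    obtain ⟨S', h, rfl⟩ := move_iff.mp hc
    exact ⟨S', h, hP⟩

lemma isP_iff {S : Finset (Fin n)} :
    IsP sinks k E S ↔ (game sinks k E).P (ind S) := by
  rw [(game sinks k E).P_iff (gens_finite sinks k E)]
  constructor
  · intro h b hb
    obtain ⟨S', h1, rfl⟩ := move_iff.mp hb
    exact isN_iff'.mp (h S' h1)
  · intro h S' hS'
    rw [isN_iff']
    exact h (ind S') (move_iff.mpr ⟨S', hS', rfl⟩)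

end

/-! ### The lists computed by the algorithm -/

lemma length_units {α : Type} (A : List α) : (units A).length = A.length := by
  induction A with
  | nil => rfl
  | cons a A ih =>
    change ((true :: (units A).map (fun _ => false)) ::
      (units A).map (fun v => false :: v)).length = _
    simp [ih]

lemma units_eq {α : Type} : ∀ (n : ℕ) (A : List α), A.length = n →
    units A = List.ofFn (fun i : Fin n => encSet {i}) := by
  intro n
  induction n with
  | zero =>
    intro A hA
    have : A = [] := List.length_eq_zero_iff.mp hA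
    subst this
    rfl
  | succ n ih =>
    intro A hA
    cases A with
    | nil => simp at hA
    | cons a A =>
      have hA' : A.length = n := by simpa using hA
      change (true :: (units A).map (fun _ => false)) ::
        (units A).map (fun v => false :: v) = _
      rw [List.ofFn_succ, ih A hA']
      congr 1
      · rw [encSet, List.ofFn_succ]
        congr 1
        · rw [List.map_ofFn]
          congr 1
      · rw [List.map_ofFn]
        congr 1
        funext i
        simp only [Function.comp, encSet]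
        rw [List.ofFn_succ]
        congr 1
        congr 1
        funext j
        simp

lemma mem_units {α : Type} {n : ℕ} {A : List α} (hA : A.length = n) {e : List Bool} :
    e ∈ units A ↔ ∃ u : Fin n, e = encSet {u} := by
  rw [units_eq n A hA, List.mem_ofFn]
  simp only [eq_comm]

lemma zero_eq {α : Type} {n : ℕ} {A : List α} (hA : A.length = n) :
    (A.map fun _ => false) = encSet (∅ : Finset (Fin n)) := by
  apply List.ext_getElem
  · simp [hA, encSet]
  · intro i h1 h2
    simp [encSet]

lemma orV_encSet {n : ℕ} (S T : Finset (Fin n)) : orV (encSet S) (encSet T) = encSet (S ∪ T) := by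
  apply List.ext_getElem
  · simp [orV, encSet]
  · intro i h1 h2
    simp [orV, encSet]

lemma mem_lowVecs {α : Type} {n : ℕ} {A : List α} (hA : A.length = n) :
    ∀ (k : ℕ) {w : List Bool}, w ∈ lowVecs A k ↔ ∃ S : Finset (Fin n), S.card ≤ k ∧
      w = encSet S := by
  intro k
  induction k with
  | zero =>
    intro w
    simp only [lowVecs, List.mem_singleton, Nat.le_zero, Finset.card_eq_zero]
    rw [zero_eq hA]
    constructor
    · intro h; exact ⟨∅, rfl, h⟩
    · rintro ⟨S, rfl, h⟩; exact h
  | succ k ih =>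
    intro w
    simp only [lowVecs, List.mem_flatMap, List.mem_cons, List.mem_map]
    constructor
    · rintro ⟨w', hw', h | ⟨e, he, h⟩⟩
      · obtain ⟨S, hS, rfl⟩ := ih.mp hw'
        exact ⟨S, by omega, h⟩
      · obtain ⟨S, hS, rfl⟩ := ih.mp hw'
        obtain ⟨u, rfl⟩ := (mem_units hA).mp he
        refine ⟨S ∪ {u}, ?_, ?_⟩
        · have := Finset.card_union_le S {u}
          simp only [Finset.card_singleton] at this
          omega
        · rw [← h, orV_encSet]
    · rintro ⟨S, hS, rfl⟩
      by_cases hle : S.card ≤ k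
      · exact ⟨encSet S, ih.mpr ⟨S, hle, rfl⟩, Or.inl rfl⟩
      · have hpos : S.Nonempty := by
          rw [← Finset.card_pos]; omega
        obtain ⟨u, hu⟩ := hpos
        refine ⟨encSet (S.erase u), ih.mpr ⟨_, ?_, rfl⟩, Or.inr ⟨encSet {u},
          (mem_units hA).mpr ⟨u, rfl⟩, ?_⟩⟩
        · rw [Finset.card_erase_of_mem hu]; omega
        · rw [orV_encSet]
          congr 1
          ext i
          simp only [Finset.mem_union, Finset.mem_erase, Finset.mem_singleton]
          constructor
          · rintro (h | rfl)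
            · exact h.2
            · exact hu
          · intro h
            by_cases hi : i = u
            · exact Or.inr hi
            · exact Or.inl ⟨hi, h⟩

lemma subV_encSet {n : ℕ} (S T : Finset (Fin n)) : subV (encSet S) (encSet T) = true ↔ S ⊆ T := by
  simp only [subV, List.all_eq_true, id]
  constructor
  · intro h i hi
    have h1 : (i : ℕ) < (List.zipWith (fun x y => !x || y) (encSet S) (encSet T)).length := by
      simp [encSet]
    have := h _ (List.getElem_mem h1)
    simp only [List.getElem_zipWith, encSet, List.getElem_ofFn] at this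
    simpa [hi] using this
  · intro h x hx
    obtain ⟨i, hi, rfl⟩ := List.mem_iff_getElem.mp hx
    simp only [List.getElem_zipWith, encSet, List.getElem_ofFn]
    by_cases h1 : (⟨i, by simpa [encSet] using hi⟩ : Fin n) ∈ S
    · simp [h h1]
    · simp [h1]

lemma mem_choices {α : Type} {n : ℕ} {A : List α} (hA : A.length = n) {k : ℕ}
    {F : Finset (Fin n)} {W : List Bool} :
    W ∈ choices A k (encSet F) ↔ ∃ S : Finset (Fin n), S ⊆ F ∧ S.card = min (k + 1) F.card ∧
      W = encSet S := by
  simp only [choices, List.mem_filter, Bool.and_eq_true, Bool.or_eq_true, beq_iff_eq,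
    Bool.not_eq_true', mem_lowVecs hA]
  constructor
  · rintro ⟨⟨S, hS, rfl⟩, h1, h2⟩
    rw [subV_encSet] at h1
    refine ⟨S, h1, ?_, rfl⟩
    have hcard := Finset.card_le_card h1
    rcases h2 with h2 | h2
    · have := encSet_inj h2
      subst this
      omega
    · have : ¬ S.card ≤ k := by
        intro hle
        have hmem : encSet S ∈ lowVecs A k := (mem_lowVecs hA k).mpr ⟨S, hle, rfl⟩
        have h3 : (lowVecs A k).contains (encSet S) = true := by
          rw [List.contains_iff_mem]; exact hmem
        rw [h2] at h3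
        exact absurd h3 (by simp)
      omega
  · rintro ⟨S, h1, h2, rfl⟩
    refine ⟨⟨S, by omega, rfl⟩, (subV_encSet _ _).mpr h1, ?_⟩
    by_cases hF : F.card ≤ k
    · left
      have : S = F := Finset.eq_of_subset_of_card_le h1 (by omega)
      rw [this]
    · right
      by_contra hcon
      rw [Bool.not_eq_false, List.contains_iff_mem, mem_lowVecs hA] at hcon
      obtain ⟨T, hT, hST⟩ := hcon
      have := encSet_inj hST
      subst this
      omega

lemma isZero_encSet {n : ℕ} (S : Finset (Fin n)) : isZero (encSet S) = true ↔ S = ∅ := by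
  rw [isZero_iff (length_encSet S), toM_encSet]
  constructor
  · intro h
    apply ind_inj
    rw [h]
    funext i
    simp [ind]
  · rintro rfl
    funext i
    simp [ind]

section

variable {sinks : Bool} {k : ℕ} {n : ℕ} {E : Fin n → Fin n → Bool}

lemma length_encGraph : (encGraph E).length = n := by simp [encGraph]

lemma encGraph_eq : encGraph E = List.ofFn fun i => encSet (followers E i) := by
  simp only [encGraph]
  congr 1
  funext i
  simp only [encSet]
  congr 1
  funext j
  simp [followers]

lemma zip_ofFn {α β : Type} (f : Fin n → α) (g : Fin n → β) :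
    (List.ofFn f).zip (List.ofFn g) = List.ofFn fun i => (f i, g i) := by
  apply List.ext_getElem
  · simp
  · intro i h1 h2
    simp

lemma mem_genList {g : List Bool × List Bool} :
    g ∈ genList sinks k (encGraph E) ↔ ∃ u W, Allowed sinks (k + 1) E u W ∧
      g = (encSet {u}, encSet W) := by
  simp only [genList, List.mem_flatMap]
  rw [units_eq n _ length_encGraph]
  conv in (encGraph E) => rw [encGraph_eq]
  simp only [zip_ofFn, List.mem_ofFn]
  constructor
  · rintro ⟨p, ⟨u, rfl⟩, hg⟩
    simp only at hg
    split at hg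
    · simp at hg
    · rename_i hs
      rw [List.mem_map] at hg
      obtain ⟨W, hW, rfl⟩ := hg
      rw [mem_choices length_encGraph] at hW
      obtain ⟨S, h1, h2, rfl⟩ := hW
      refine ⟨u, S, ⟨?_, h1, h2⟩, rfl⟩
      simp only [Bool.and_eq_true, Bool.not_eq_true', isZero_encSet, not_and] at hs
      cases sinks
      · right
        exact Finset.nonempty_iff_ne_empty.mpr (hs rfl)
      · left; rfl
  · rintro ⟨u, W, ⟨hs, h1, h2⟩, rfl⟩
    refine ⟨_, ⟨u, rfl⟩, ?_⟩
    simp only
    rw [if_neg]
    · rw [List.mem_map]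
      exact ⟨encSet W, (mem_choices length_encGraph).mpr ⟨W, h1, h2, rfl⟩, rfl⟩
    · simp only [Bool.and_eq_true, Bool.not_eq_true', isZero_encSet, not_and]
      intro h h3
      rcases hs with hs | hs
      · rw [h] at hs; exact absurd hs (by simp)
      · rw [h3] at hs
        exact absurd hs (by simp)

lemma length_gvec {g : List Bool × List Bool} (hg : g ∈ genList sinks k (encGraph E)) :
    (gvec g).length = n := by
  obtain ⟨u, W, _, rfl⟩ := mem_genList.mp hg
  exact length_xorV (length_encSet _) (length_encSet _)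

lemma toM_gvec (u : Fin n) (W : Finset (Fin n)) :
    toM n (gvec (encSet {u}, encSet W)) = ind {u} + ind W := by
  rw [gvec, toM_xorV (length_encSet _) (length_encSet _), toM_encSet, toM_encSet]

lemma meets_iff {u : Fin n} {a : List Bool} (ha : a.length = n) :
    meets (encSet {u}) a = true ↔ toM n a u = 1 := by
  obtain ⟨S, rfl⟩ := exists_encSet ha
  rw [toM_encSet]
  simp only [meets, List.any_eq_true, id, exists_eq_right]
  constructor
  · intro h
    obtain ⟨i, hi, h2⟩ := List.mem_iff_getElem.mp h
    simp only [List.getElem_zipWith, encSet, List.getElem_ofFn, Bool.and_eq_true,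
      decide_eq_true_eq, Finset.mem_singleton] at h2
    rw [h2.1] at h2
    simp [ind, h2.2]
  · intro h
    have hu : u ∈ S := by
      by_contra hu
      simp [ind, hu] at h
    rw [List.mem_iff_getElem]
    refine ⟨u, by simp [encSet], ?_⟩
    simp [encSet, hu]

lemma gens_iff {u : Fin n} {x : Fin n → ZMod 2} :
    (u, x) ∈ (game sinks (k + 1) E).gens ↔ ∃ g ∈ genList sinks k (encGraph E),
      g.1 = encSet {u} ∧ x = toM n (gvec g) := by
  constructor
  · rintro ⟨W, hall, hx⟩
    refine ⟨(encSet {u}, encSet W), mem_genList.mpr ⟨u, W, hall, rfl⟩, rfl, ?_⟩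
    rw [toM_gvec]
    exact hx
  · rintro ⟨g, hg, h1, h2⟩
    obtain ⟨u', W, hall, rfl⟩ := mem_genList.mp hg
    have : u' = u := by
      have := encSet_inj h1
      exact Finset.singleton_injective this
    subst this
    refine ⟨W, hall, ?_⟩
    rw [h2, toM_gvec]

lemma good_iff {g : List Bool × List Bool} (hg : g ∈ genList sinks k (encGraph E)) {u : Fin n}
    (hu : g.1 = encSet {u}) : good g = true ↔ toM n (gvec g) u = 1 := by
  rw [good, hu]
  exact meets_iff (length_gvec hg)

/-- span of unit vectors -/
lemma mem_span_units {l : List (List Bool)} {a : Fin n → ZMod 2}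
    (h : ∀ u : Fin n, a u = 1 → encSet {u} ∈ l) : a ∈ spanL n l := by
  have h1 : a = ∑ u : Fin n, (if a u = 1 then ind {u} else 0) := by
    funext i
    rw [Finset.sum_apply]
    have : ∀ u : Fin n, (if a u = 1 then ind {u} else (0 : Fin n → ZMod 2)) i
        = if u = i then a i else 0 := by
      intro u
      by_cases hu : u = i
      · subst hu
        rcases LinGame.zmod2_cases (a u) with h0 | h0 <;> simp [h0, ind]
      · have hu' : i ≠ u := fun h => hu h.symm
        simp only [hu, if_false]
        split
        · simp [ind, hu']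
        · rfl
    simp [this]
  rw [h1]
  apply AddSubgroup.sum_mem
  intro u _
  split
  · rename_i hu
    rw [← toM_encSet]
    exact mem_spanL_of_mem (h u hu)
  · exact (spanL n l).zero_mem

lemma span_units_support {l : List (List Bool)} (hl : ∀ e ∈ l, ∃ u : Fin n, e = encSet {u})
    {a : Fin n → ZMod 2} (ha : a ∈ spanL n l) : ∀ u : Fin n, a u = 1 → encSet {u} ∈ l := by
  rw [spanL] at ha
  have key : ∀ u : Fin n, a u ≠ 0 → encSet {u} ∈ l := by
    induction ha using AddSubgroup.closure_induction with
    | mem x hx =>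
      obtain ⟨g, hg, rfl⟩ := hx
      intro u hu
      obtain ⟨u', rfl⟩ := hl g hg
      rw [toM_encSet] at hu
      have : u = u' := by
        by_contra hne
        apply hu
        simp [ind, hne]
      subst this
      exact hg
    | zero => intro u hu; simp at hu
    | add x y _ _ hx hy =>
      intro u hu
      by_cases h1 : x u = 0
      · apply hy
        intro h2
        apply hu
        simp [h1, h2]
      · exact hx u h1
    | neg x _ hx =>
      intro u hu
      apply hx
      simpa using hu
  intro u hu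
  exact key u (by rw [hu]; decide)

lemma spanL_append {l l' : List (List Bool)} {m : Fin n → ZMod 2} :
    m ∈ spanL n (l ++ l') ↔ ∃ a ∈ spanL n l, ∃ b ∈ spanL n l', m = a + b := by
  constructor
  · intro h
    rw [spanL] at h
    induction h using AddSubgroup.closure_induction with
    | mem x hx =>
      obtain ⟨g, hg, rfl⟩ := hx
      rcases List.mem_append.mp hg with h | h
      · exact ⟨toM n g, mem_spanL_of_mem h, 0, (spanL n l').zero_mem, by simp⟩
      · exact ⟨0, (spanL n l).zero_mem, toM n g, mem_spanL_of_mem h, by simp⟩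
    | zero => exact ⟨0, (spanL n l).zero_mem, 0, (spanL n l').zero_mem, by simp⟩
    | add x y _ _ hx hy =>
      obtain ⟨a, ha, b, hb, rfl⟩ := hx
      obtain ⟨c, hc, d, hd, rfl⟩ := hy
      exact ⟨a + c, (spanL n l).add_mem ha hc, b + d, (spanL n l').add_mem hb hd, by abel⟩
    | neg x _ hx =>
      obtain ⟨a, ha, b, hb, rfl⟩ := hx
      exact ⟨-a, (spanL n l).neg_mem ha, -b, (spanL n l').neg_mem hb, by abel⟩
  · rintro ⟨a, ha, b, hb, rfl⟩
    have h1 : spanL n l ≤ spanL n (l ++ l') :=
      spanL_mono fun g hg => mem_spanL_of_mem (List.mem_append_left _ hg)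
    have h2 : spanL n l' ≤ spanL n (l ++ l') :=
      spanL_mono fun g hg => mem_spanL_of_mem (List.mem_append_right _ hg)
    exact (spanL n (l ++ l')).add_mem (h1 ha) (h2 hb)

end

end Pool.Agent.H656R2.Annih
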