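import Mathlib

/-!
# `k`-annihilation games

Definitions used in the statement about `k`-annihilation games on finite digraphs.
The digraph has vertex set `Fin n` and is given by its adjacency matrix
`E : Fin n → Fin n → Bool`; loops are allowed.
-/

namespace Pool.Agent.H656R2.Annih

/-- The set of followers of the vertex `u`. -/
def followers {n : ℕ} (E : Fin n → Fin n → Bool) (u : Fin n) : Finset (Fin n) :=
  Finset.univ.filter fun v => E u v = true

/-- In the position `S` (the set of vertices carrying a token) the mover may pick `u` and the set
`W` of followers of `u`, and this leads to the position `S'`: `u` carries a token, `W` is a set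
of `min(k, outdegree of u)` followers of `u`, and `S'` arises from `S` by removing the token
of `u` and then complementing the vertices in `W`. The flag `sinks` tells whether a vertex
without followers may be picked (its token is then just removed). -/
def IsMove (sinks : Bool) (k : ℕ) {n : ℕ} (E : Fin n → Fin n → Bool) (S : Finset (Fin n))
    (u : Fin n) (W : Finset (Fin n)) (S' : Finset (Fin n)) : Prop :=
  u ∈ S ∧ (sinks = true ∨ (followers E u).Nonempty) ∧
    W ⊆ followers E u ∧ W.card = min k (followers E u).card ∧ S' = symmDiff (S.erase u) W

/-- There is a move from the position `S` to the position `S'`. -/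
def Move (sinks : Bool) (k : ℕ) {n : ℕ} (E : Fin n → Fin n → Bool)
    (S S' : Finset (Fin n)) : Prop :=
  ∃ u W, IsMove sinks k E S u W S'

/-- The player about to move in the position `S` can force a win (that is, he can force to make
the last move of the play) within at most `i` moves of his own. -/
def WinWithin (sinks : Bool) (k : ℕ) {n : ℕ} (E : Fin n → Fin n → Bool) :
    ℕ → Finset (Fin n) → Prop
  | 0, _ => False
  | i + 1, S => ∃ S', Move sinks k E S S' ∧ ∀ S'', Move sinks k E S' S'' →
      WinWithin sinks k E i S''

/-- `S` is an `N`-position: the player about to move can force a win. -/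
def IsN (sinks : Bool) (k : ℕ) {n : ℕ} (E : Fin n → Fin n → Bool) (S : Finset (Fin n)) : Prop :=
  ∃ i, WinWithin sinks k E i S

/-- `S` is a `P`-position: the player who just moved can force a win, that is, whatever the
opponent does, the player who just moved can force a win from the resulting position. -/
def IsP (sinks : Bool) (k : ℕ) {n : ℕ} (E : Fin n → Fin n → Bool) (S : Finset (Fin n)) : Prop :=
  ∀ S', Move sinks k E S S' → IsN sinks k E S'

/-- `S` is an `O`-position (a draw): neither player can force a win. -/
def IsO (sinks : Bool) (k : ℕ) {n : ℕ} (E : Fin n → Fin n → Bool) (S : Finset (Fin n)) : Prop :=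
  ¬ IsP sinks k E S ∧ ¬ IsN sinks k E S

/-- The adjacency matrix of the digraph as a list of rows. -/
def encGraph {n : ℕ} (E : Fin n → Fin n → Bool) : List (List Bool) :=
  List.ofFn fun i => List.ofFn fun j => E i j

/-- A set of vertices as a list of `n` bits. -/
def encSet {n : ℕ} (S : Finset (Fin n)) : List Bool :=
  List.ofFn fun i => decide (i ∈ S)

/-- What an answer has to be: the first bit tells whether `S` is in `P`, the second bit whether it
is in `N` (so `S` is in `O` iff both bits are `false`), and if `S` is in `N` or in `O` then the
rest of the answer is an optimal next move, given by the vertex `u` picked and the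
set `W` of followers complemented: a move to a `P`-position if `S` is in `N`, and a move to
an `O`-position if `S` is in `O`. -/
def Correct (sinks : Bool) (k : ℕ) {n : ℕ} (E : Fin n → Fin n → Bool) (S : Finset (Fin n))
    (ans : (Bool × Bool) × (List Bool × List Bool)) : Prop :=
  (ans.1.1 = true ↔ IsP sinks k E S) ∧ (ans.1.2 = true ↔ IsN sinks k E S) ∧
    (IsN sinks k E S → ∃ u W S', IsMove sinks k E S u W S' ∧ IsP sinks k E S' ∧
      ans.2 = (encSet {u}, encSet W)) ∧
    (IsO sinks k E S → ∃ u W S', IsMove sinks k E S u W S' ∧ IsO sinks k E S' ∧
      ans.2 = (encSet {u}, encSet W))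

end Pool.Agent.H656R2.Annih
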