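import Pool.Agent.H656R2.Annih.Correct

namespace Pool.Agent.H656R2.Annih

open Algo

section

variable {sinks : Bool} {k : ℕ} {n : ℕ} {E : Fin n → Fin n → Bool}

/-- abbreviation: the list of generators -/
abbrev gl (sinks : Bool) (k : ℕ) {n : ℕ} (E : Fin n → Fin n → Bool) :
    List (List Bool × List Bool) := genList sinks k (encGraph E)

/-- abbreviation: the list of unit vectors -/
abbrev ul {n : ℕ} (E : Fin n → Fin n → Bool) : List (List Bool) := units (encGraph E)

lemma test_iff {L : List (List Bool)} (hL : ∀ g ∈ L, g.length = n) {z : List Bool}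
    (hz : z.length = n) :
    test (ul E) (gl sinks k E) L z = true ↔
      (game sinks (k + 1) E).Test (spanL n L : Set (Fin n → ZMod 2)) (toM n z) := by
  have hul : ∀ e ∈ ulist (ul E) (gl sinks k E) L z, ∃ u : Fin n, e = encSet {u} := by
    intro e he
    simp only [ulist, List.mem_filter] at he
    exact (mem_units length_encGraph).mp he.1
  have hlen : ∀ g ∈ L ++ ulist (ul E) (gl sinks k E) L z, g.length = n := by
    intro g hg
    rcases List.mem_append.mp hg with h | h
    · exact hL g h
    · obtain ⟨u, rfl⟩ := hul g h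
      exact length_encSet _
  have hcond : ∀ u : Fin n, encSet {u} ∈ ulist (ul E) (gl sinks k E) L z ↔
      ∀ x, (u, x) ∈ (game sinks (k + 1) E).gens → ∃ g' ∈ (game sinks (k + 1) E).gens,
        (game sinks (k + 1) E).occ g'.1 g'.2 = 1 ∧ toM n z + x + g'.2 ∈ spanL n L := by
    intro u
    simp only [ulist, List.mem_filter, List.all_eq_true, Bool.or_eq_true, Bool.not_eq_true',
      beq_eq_false_iff_ne, List.any_eq_true]
    constructor
    · rintro ⟨_, h⟩ x hx
      obtain ⟨g, hg, h1, rfl⟩ := gens_iff.mp hx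
      rcases h g hg with h2 | ⟨g', ⟨hg', hgood⟩, hmem⟩
      · exact absurd h1 h2
      · obtain ⟨u', W', hall', he'⟩ := mem_genList.mp hg'
        have hg'1 : g'.1 = encSet {u'} := by rw [he']
        refine ⟨(u', toM n (gvec g')), gens_iff.mpr ⟨g', hg', hg'1, rfl⟩, ?_, ?_⟩
        · exact (good_iff hg' hg'1).mp hgood
        · rw [member_iff hL (length_xorV (length_xorV hz (length_gvec hg)) (length_gvec hg')),
            toM_xorV (length_xorV hz (length_gvec hg)) (length_gvec hg'),
            toM_xorV hz (length_gvec hg)] at hmem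
          exact hmem
    · intro h
      refine ⟨(mem_units length_encGraph).mpr ⟨u, rfl⟩, ?_⟩
      intro g hg
      by_cases hgu : g.1 = encSet {u}
      · right
        obtain ⟨⟨u', x'⟩, hg', hocc, hmem⟩ := h (toM n (gvec g)) (gens_iff.mpr ⟨g, hg, hgu, rfl⟩)
        obtain ⟨g', hg'l, hg'1, rfl⟩ := gens_iff.mp hg'
        refine ⟨g', ⟨hg'l, (good_iff hg'l hg'1).mpr hocc⟩, ?_⟩
        rw [member_iff hL (length_xorV (length_xorV hz (length_gvec hg)) (length_gvec hg'l)),
            toM_xorV (length_xorV hz (length_gvec hg)) (length_gvec hg'l),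
            toM_xorV hz (length_gvec hg)]
        exact hmem
      · left
        exact hgu
  rw [test, member_iff hlen hz, spanL_append]
  constructor
  · rintro ⟨l, hl, a, ha, hla⟩
    refine ⟨a, ?_, ?_⟩
    · have : a + toM n z = l := by
        rw [hla]
        have h2 := hM2 a
        calc a + (l + a) = l + (a + a) := by abel
          _ = l := by rw [h2, add_zero]
      rw [this]
      exact hl
    · rintro ⟨u, x⟩ hg hocc
      have h1 := span_units_support hul ha u hocc
      exact (hcond u).mp h1 x hg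
  · rintro ⟨a, ha, hall⟩
    refine ⟨a + toM n z, ha, a, ?_, ?_⟩
    · apply mem_span_units
      intro u hu
      rw [hcond]
      intro x hx
      exact hall (u, x) hx hu
    · have h2 := hM2 a
      calc toM n z = toM n z + (a + a) := by rw [h2, add_zero]
        _ = a + toM n z + a := by abel

/-- the sequence of lists computed by the algorithm -/
def Lseq (sinks : Bool) (k : ℕ) {n : ℕ} (E : Fin n → Fin n → Bool) : ℕ → List (List Bool)
  | 0 => []
  | i + 1 => step (ul E) (gl sinks k E) (Lseq sinks k E i)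

lemma length_cands {z : List Bool} (hz : z ∈ cands (gl sinks k E)) : z.length = n := by
  simp only [cands, List.mem_flatMap, List.mem_map, List.mem_filter] at hz
  obtain ⟨g, hg, g', ⟨hg', _⟩, rfl⟩ := hz
  exact length_xorV (length_gvec hg) (length_gvec hg')

lemma length_step {L : List (List Bool)} : ∀ g ∈ step (ul E) (gl sinks k E) L, g.length = n := by
  intro g hg
  simp only [step, List.mem_append, sinksL, List.mem_filter] at hg
  rcases hg with ⟨hg, _⟩ | ⟨hg, _⟩
  · obtain ⟨u, rfl⟩ := (mem_units length_encGraph).mp hg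
    exact length_encSet _
  · exact length_cands hg

lemma length_Lseq (i : ℕ) : ∀ g ∈ Lseq sinks k E i, g.length = n := by
  cases i with
  | zero => intro g hg; simp [Lseq] at hg
  | succ i => exact length_step

lemma sink_terminal {e : List Bool} (he : e ∈ sinksL (ul E) (gl sinks k E)) :
    ∀ b, ¬ (game sinks (k + 1) E).Move (toM n e) b := by
  simp only [sinksL, List.mem_filter, List.all_eq_true, Bool.not_eq_true',
    beq_eq_false_iff_ne] at he
  obtain ⟨he, hall⟩ := he
  obtain ⟨u, rfl⟩ := (mem_units length_encGraph).mp he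
  rintro b ⟨⟨u', x⟩, hg, hocc, _⟩
  rw [toM_encSet] at hocc
  have hocc' : ind {u} u' = 1 := hocc
  have : u' = u := by
    by_contra hne
    simp [ind, hne] at hocc'
  subst this
  obtain ⟨g, hg', h1, _⟩ := gens_iff.mp hg
  exact hall g hg' h1

lemma Lseq_sound (i : ℕ) : ∀ a ∈ spanL n (Lseq sinks k E i), (game sinks (k + 1) E).P a := by
  induction i with
  | zero =>
    intro a ha
    have : spanL n ([] : List (List Bool)) = ⊥ := by
      rw [spanL, AddSubgroup.closure_eq_bot_iff]
      rintro x ⟨g, hg, _⟩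
      simp at hg
    rw [Lseq, this] at ha
    have : a = 0 := ha
    rw [this]
    exact (game sinks (k + 1) E).P_zero
  | succ i ih =>
    have hle : spanL n (Lseq sinks k E (i + 1)) ≤ (game sinks (k + 1) E).PSub hM2 := by
      rw [spanL, AddSubgroup.closure_le]
      rintro _ ⟨g, hg, rfl⟩
      change (game sinks (k + 1) E).P (toM n g)
      simp only [Lseq, step, List.mem_append, List.mem_filter] at hg
      rcases hg with hg | ⟨hg, ht⟩
      · exact ⟨0, sink_terminal hg⟩
      · rw [test_iff (length_Lseq i) (length_cands hg)] at ht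
        exact (game sinks (k + 1) E).test_sound hM2 (gens_finite _ _ _) _ ih ht
    intro a ha
    exact hle ha

lemma test_mono' {i : ℕ} {L L' : List (List Bool)} (hL : ∀ g ∈ L, g.length = n)
    (hL' : ∀ g ∈ L', g.length = n) (h : ∀ g ∈ L, g ∈ L') {z : List Bool} (hz : z.length = n)
    (ht : test (ul E) (gl sinks k E) L z = true) : test (ul E) (gl sinks k E) L' z = true := by
  rw [test_iff hL hz] at ht
  rw [test_iff hL' hz]
  exact (game sinks (k + 1) E).test_mono (spanL_mono fun g hg => mem_spanL_of_mem (h g hg)) ht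

lemma Lseq_mono (i : ℕ) : ∀ g ∈ Lseq sinks k E i, g ∈ Lseq sinks k E (i + 1) := by
  induction i with
  | zero => intro g hg; simp [Lseq] at hg
  | succ i ih =>
    intro g hg
    rw [Lseq, step, List.mem_append] at hg ⊢
    rcases hg with hg | hg
    · left; exact hg
    · right
      rw [List.mem_filter] at hg ⊢
      exact ⟨hg.1, test_mono' (i := i) (length_Lseq i) (length_Lseq (i + 1)) ih
        (length_cands hg.1) hg.2⟩

/-- the part of the candidates accepted -/
def Tseq (sinks : Bool) (k : ℕ) {n : ℕ} (E : Fin n → Fin n → Bool) (i : ℕ) : List (List Bool) :=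
  (cands (gl sinks k E)).filter (test (ul E) (gl sinks k E) (Lseq sinks k E i))

lemma Lseq_succ (i : ℕ) : Lseq sinks k E (i + 1) =
    sinksL (ul E) (gl sinks k E) ++ Tseq sinks k E i := rfl

lemma Tseq_sublist (i : ℕ) : (Tseq sinks k E i).Sublist (Tseq sinks k E (i + 1)) := by
  have : Tseq sinks k E i = (Tseq sinks k E (i + 1)).filter
      (test (ul E) (gl sinks k E) (Lseq sinks k E i)) := by
    simp only [Tseq, List.filter_filter]
    apply List.filter_congr
    intro z hz
    by_cases h : test (ul E) (gl sinks k E) (Lseq sinks k E i) z = true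
    · have h2 := test_mono' (i := i) (length_Lseq i) (length_Lseq (i + 1)) (Lseq_mono i)
        (length_cands hz) h
      simp [h, h2]
    · simp [h]
  rw [this]
  exact List.filter_sublist

lemma stable_succ {i : ℕ} (h : Tseq sinks k E i = Tseq sinks k E (i + 1)) :
    Tseq sinks k E (i + 1) = Tseq sinks k E (i + 2) := by
  have h1 : Lseq sinks k E (i + 1) = Lseq sinks k E (i + 2) := by
    rw [Lseq_succ, Lseq_succ (i + 1), h]
  rw [Tseq, Tseq, ← h1]

lemma stable_mono {i j : ℕ} (hij : i ≤ j) (h : Tseq sinks k E i = Tseq sinks k E (i + 1)) :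
    Tseq sinks k E j = Tseq sinks k E (j + 1) := by
  induction j, hij using Nat.le_induction with
  | base => exact h
  | succ j _ ih => exact stable_succ ih

lemma growth (i : ℕ) (h : Tseq sinks k E i ≠ Tseq sinks k E (i + 1)) :
    i + 1 ≤ (Tseq sinks k E (i + 1)).length := by
  induction i with
  | zero =>
    have h1 := (Tseq_sublist (sinks := sinks) (k := k) (E := E) 0).length_le
    have h2 : (Tseq sinks k E 0).length ≠ (Tseq sinks k E 1).length := fun he =>
      h ((Tseq_sublist 0).eq_of_length he)
    simp only [zero_add] at h1 ⊢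
    omega
  | succ i ih =>
    have h0 : Tseq sinks k E i ≠ Tseq sinks k E (i + 1) := fun he => h (stable_succ he)
    have h1 := (Tseq_sublist (sinks := sinks) (k := k) (E := E) (i + 1)).length_le
    have h2 : (Tseq sinks k E (i + 1)).length ≠ (Tseq sinks k E (i + 1 + 1)).length := fun he =>
      h ((Tseq_sublist (i + 1)).eq_of_length he)
    have h3 := ih h0
    omega

lemma stable_at : Tseq sinks k E (cands (gl sinks k E)).length =
    Tseq sinks k E ((cands (gl sinks k E)).length + 1) := by
  by_contra h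
  have h1 := growth _ h
  have h2 : (Tseq sinks k E ((cands (gl sinks k E)).length + 1)).length ≤
      (cands (gl sinks k E)).length := List.length_filter_le _ _
  omega

lemma psub_eq : psub (ul E) (gl sinks k E) =
    Lseq sinks k E ((cands (gl sinks k E)).length + 1) := by
  have key : ∀ (l : List (List Bool)) (i : ℕ),
      l.foldl (fun L _ => step (ul E) (gl sinks k E) L) (Lseq sinks k E i) =
        Lseq sinks k E (i + l.length) := by
    intro l
    induction l with
    | nil => intro i; rfl
    | cons a l ih =>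
      intro i
      rw [List.foldl_cons]
      have : step (ul E) (gl sinks k E) (Lseq sinks k E i) = Lseq sinks k E (i + 1) := rfl
      rw [this, ih (i + 1), List.length_cons]
      congr 1
      omega
  have := key ([] :: cands (gl sinks k E)) 0
  rw [psub]
  have h0 : Lseq sinks k E 0 = [] := rfl
  rw [h0] at this
  rw [this, List.length_cons, Nat.zero_add]

lemma length_psub : ∀ g ∈ psub (ul E) (gl sinks k E), g.length = n := by
  rw [psub_eq]
  exact length_Lseq _

/-- the computed space is the space of P-positions -/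
theorem mem_psub {a : Fin n → ZMod 2} :
    a ∈ spanL n (psub (ul E) (gl sinks k E)) ↔ (game sinks (k + 1) E).P a := by
  rw [psub_eq]
  set N := (cands (gl sinks k E)).length with hN
  refine ⟨Lseq_sound _ a, ?_⟩
  rintro ⟨i, hi⟩
  refine (game sinks (k + 1) E).complete hM2 (spanL n (Lseq sinks k E (N + 1))) ?_ ?_ i a hi
  · intro b hb
    apply mem_span_units
    intro u hu
    rw [Lseq_succ]
    apply List.mem_append_left
    simp only [sinksL, List.mem_filter, List.all_eq_true, Bool.not_eq_true',
      beq_eq_false_iff_ne]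
    refine ⟨(mem_units length_encGraph).mpr ⟨u, rfl⟩, fun g hg h1 => ?_⟩
    exact hb _ ⟨(u, toM n (gvec g)), gens_iff.mpr ⟨g, hg, h1, rfl⟩, hu, rfl⟩
  · rintro ⟨u, x⟩ hg ⟨u', x'⟩ hg' hocc htest
    obtain ⟨g, hgl, h1, rfl⟩ := gens_iff.mp hg
    obtain ⟨g', hgl', h1', rfl⟩ := gens_iff.mp hg'
    simp only at htest hocc ⊢
    rw [← toM_xorV (length_gvec hgl) (length_gvec hgl')] at htest ⊢
    apply mem_spanL_of_mem
    have hc : xorV (gvec g) (gvec g') ∈ cands (gl sinks k E) := by
      simp only [cands, List.mem_flatMap, List.mem_map, List.mem_filter]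
      exact ⟨g, hgl, g', ⟨hgl', (good_iff hgl' h1').mpr hocc⟩, rfl⟩
    rw [← test_iff (length_Lseq (N + 1)) (length_cands hc)] at htest
    have h2 : xorV (gvec g) (gvec g') ∈ Tseq sinks k E (N + 1) := by
      rw [Tseq, List.mem_filter]
      exact ⟨hc, htest⟩
    rw [← stable_at] at h2
    rw [Lseq_succ]
    exact List.mem_append_right _ h2

lemma member_psub {a : List Bool} (ha : a.length = n) :
    member (psub (ul E) (gl sinks k E)) a = true ↔ (game sinks (k + 1) E).P (toM n a) := by
  rw [member_iff length_psub ha, mem_psub]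

lemma isNpos_iff {a : List Bool} (ha : a.length = n) :
    isNpos (gl sinks k E) (psub (ul E) (gl sinks k E)) a = true ↔
      ∃ c, (game sinks (k + 1) E).Move (toM n a) c ∧ (game sinks (k + 1) E).P c := by
  simp only [isNpos, List.any_eq_true, Bool.and_eq_true]
  constructor
  · rintro ⟨g, hg, h1, h2⟩
    obtain ⟨u, W, hall, he⟩ := mem_genList.mp hg
    have hg1 : g.1 = encSet {u} := by rw [he]
    rw [member_psub (length_xorV ha (length_gvec hg)), toM_xorV ha (length_gvec hg)] at h2
    rw [hg1, meets_iff ha] at h1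
    exact ⟨_, ⟨(u, toM n (gvec g)), gens_iff.mpr ⟨g, hg, hg1, rfl⟩, h1, rfl⟩, h2⟩
  · rintro ⟨c, ⟨⟨u, x⟩, hg, hocc, rfl⟩, hP⟩
    obtain ⟨g, hgl, h1, rfl⟩ := gens_iff.mp hg
    refine ⟨g, hgl, ?_, ?_⟩
    · rw [h1, meets_iff ha]
      exact hocc
    · rw [member_psub (length_xorV ha (length_gvec hgl)), toM_xorV ha (length_gvec hgl)]
      exact hP

/-- correctness of the algorithm -/
theorem solve_correct (sinks : Bool) (k : ℕ) {n : ℕ} (E : Fin n → Fin n → Bool)
    (S : Finset (Fin n)) :
    Correct sinks (k + 1) E S (solve sinks k (encGraph E, encSet S)) := by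
  set G := game sinks (k + 1) E with hG
  set L := psub (ul E) (gl sinks k E) with hL
  have hlen := length_encSet S
  have hans : solve sinks k (encGraph E, encSet S) = answer (gl sinks k E) L (encSet S) := rfl
  rw [hans]
  have hP : member L (encSet S) = true ↔ IsP sinks (k + 1) E S := by
    rw [hL, member_psub hlen, toM_encSet, isP_iff]
  have hN : isNpos (gl sinks k E) L (encSet S) = true ↔ IsN sinks (k + 1) E S := by
    rw [hL, isNpos_iff hlen, toM_encSet, isN_iff']
  -- what a generator does
  have hgen : ∀ g ∈ gl sinks k E, meets g.1 (encSet S) = true →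
      ∃ u W S', IsMove sinks (k + 1) E S u W S' ∧ g = (encSet {u}, encSet W) ∧
        toM n (xorV (encSet S) (gvec g)) = ind S' := by
    intro g hg hm
    obtain ⟨u, W, hall, rfl⟩ := mem_genList.mp hg
    rw [meets_iff hlen, toM_encSet] at hm
    have hu : u ∈ S := by
      by_contra hu
      simp [ind, hu] at hm
    refine ⟨u, W, symmDiff (S.erase u) W, ?_, rfl, ?_⟩
    · exact ⟨hu, hall.1, hall.2.1, hall.2.2, rfl⟩
    · rw [toM_xorV hlen (length_gvec hg), toM_gvec, toM_encSet, ind_symmDiff, ind_erase hu,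
        add_assoc]
  have hgen' : ∀ u W S', IsMove sinks (k + 1) E S u W S' →
      ((encSet {u}, encSet W) ∈ gl sinks k E ∧ meets (encSet {u}) (encSet S) = true ∧
        toM n (xorV (encSet S) (gvec (encSet {u}, encSet W))) = ind S') := by
    intro u W S' h
    rw [isMove_iff] at h
    obtain ⟨hu, hall, h3⟩ := h
    have hmem : (encSet {u}, encSet W) ∈ gl sinks k E := mem_genList.mpr ⟨u, W, hall, rfl⟩
    refine ⟨hmem, ?_, ?_⟩
    · rw [meets_iff hlen, toM_encSet]
      simp [ind, hu]
    · rw [toM_xorV hlen (length_gvec hmem), toM_gvec, toM_encSet, h3]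
  have hwin : ∀ g, g ∈ winMoves (gl sinks k E) L (encSet S) ↔
      ∃ u W S', IsMove sinks (k + 1) E S u W S' ∧ g = (encSet {u}, encSet W) ∧
        IsP sinks (k + 1) E S' := by
    intro g
    simp only [winMoves, List.mem_filter, Bool.and_eq_true]
    constructor
    · rintro ⟨hg, h1, h2⟩
      obtain ⟨u, W, S', hmv, he, hS'⟩ := hgen g hg h1
      rw [hL, member_psub (length_xorV hlen (length_gvec hg)), hS', ← isP_iff] at h2
      exact ⟨u, W, S', hmv, he, h2⟩
    · rintro ⟨u, W, S', hmv, rfl, h2⟩
      obtain ⟨h3, h4, h5⟩ := hgen' u W S' hmv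
      refine ⟨h3, h4, ?_⟩
      rw [hL, member_psub (length_xorV hlen (length_gvec h3)), h5, ← isP_iff]
      exact h2
  have hdraw : ∀ g, g ∈ drawMoves (gl sinks k E) L (encSet S) ↔
      ∃ u W S', IsMove sinks (k + 1) E S u W S' ∧ g = (encSet {u}, encSet W) ∧
        ¬ IsN sinks (k + 1) E S' := by
    intro g
    simp only [drawMoves, List.mem_filter, Bool.and_eq_true, Bool.not_eq_true']
    constructor
    · rintro ⟨hg, h1, h2⟩
      obtain ⟨u, W, S', hmv, he, hS'⟩ := hgen g hg h1
      refine ⟨u, W, S', hmv, he, fun hcon => ?_⟩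
      rw [isN_iff', ← hS'] at hcon
      rw [hL, ← Bool.not_eq_true] at h2
      exact h2 ((isNpos_iff (length_xorV hlen (length_gvec hg))).mpr hcon)
    · rintro ⟨u, W, S', hmv, rfl, h2⟩
      obtain ⟨h3, h4, h5⟩ := hgen' u W S' hmv
      refine ⟨h3, h4, ?_⟩
      rw [← Bool.not_eq_true]
      intro hcon
      rw [hL, isNpos_iff (length_xorV hlen (length_gvec h3)), h5, ← isN_iff'] at hcon
      exact h2 hcon
  refine ⟨hP, hN, ?_, ?_⟩
  · intro h
    -- a winning move exists
    obtain ⟨S', ⟨u, W, hmv⟩, hP'⟩ := isN_iff.mp h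
    have hmem : (encSet {u}, encSet W) ∈ winMoves (gl sinks k E) L (encSet S) :=
      (hwin _).mpr ⟨u, W, S', hmv, rfl, isP_iff.mpr hP'⟩
    cases hw : winMoves (gl sinks k E) L (encSet S) with
    | nil => rw [hw] at hmem; simp at hmem
    | cons g rest =>
      obtain ⟨u₁, W₁, S₁, h1, h2, h3⟩ := (hwin g).mp (by rw [hw]; simp)
      refine ⟨u₁, W₁, S₁, h1, h3, ?_⟩
      simp [answer, hw, h2]
  · rintro ⟨hnP, hnN⟩
    have hw : winMoves (gl sinks k E) L (encSet S) = [] := by
      rw [List.eq_nil_iff_forall_not_mem]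
      intro g hg
      obtain ⟨u, W, S', h1, _, h3⟩ := (hwin g).mp hg
      exact hnN (isN_iff.mpr ⟨S', ⟨u, W, h1⟩, isP_iff.mp h3⟩)
    have hex : ∃ S', Move sinks (k + 1) E S S' ∧ ¬ IsN sinks (k + 1) E S' := by
      by_contra hcon
      push Not at hcon
      exact hnP hcon
    obtain ⟨S', ⟨u, W, hmv⟩, hS'⟩ := hex
    have hmem : (encSet {u}, encSet W) ∈ drawMoves (gl sinks k E) L (encSet S) :=
      (hdraw _).mpr ⟨u, W, S', hmv, rfl, hS'⟩
    cases hd : drawMoves (gl sinks k E) L (encSet S) with
    | nil => rw [hd] at hmem; simp at hmem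
    | cons g rest =>
      obtain ⟨u₁, W₁, S₁, h1, h2, h3⟩ := (hdraw g).mp (by rw [hd]; simp)
      refine ⟨u₁, W₁, S₁, h1, ⟨fun hcon => ?_, h3⟩, ?_⟩
      · exact hnN (isN_iff.mpr ⟨S₁, ⟨u₁, W₁, h1⟩, isP_iff.mp hcon⟩)
      · simp [answer, hw, hd, h2]

end

end Pool.Agent.H656R2.Annih
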