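import Pool.Agent.H656R2.NPC.Num
import Pool.Agent.H656R2.Annih.Algo

/-!
# The algorithm runs in polynomial time
-/

namespace Pool.Agent.H656R2.NPC.H656Annih

open Pool.Agent.H656R2.Annih.Algo Turing

/-- A program gives a Turing machine, for arbitrary encodings. -/
theorem toTM2 {α β : Type} {ea : α → List Bool} {eb : β → List Bool} {f : α → β}
    (h : PC ea eb f) : Nonempty (TM2ComputableInPolyTime ea eb f) := by
  obtain ⟨c, p, h⟩ := h
  have key : ∀ x : α, ∃ t, t ≤ p.eval (ea x).length + 1 ∧
      Nonempty (TM2OutputsInTime (c.map (Fin.ofNat (c.bd + 1))).toTM (ea x)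
        (some (eb (f x))) t) := by
    intro x
    obtain ⟨t, ht, hr⟩ := h x
    have h1 := hr.restrict (n := c.bd) (by omega)
    refine ⟨t + 1, by simpa using ht, toTM_outputs ?_⟩
    convert! h1 using 1
    · funext i
      by_cases hi : i = 0
      · subst hi; simp [inp]
      · have : (i : ℕ) ≠ 0 := fun h => hi (Fin.ext h)
        simp [inp, hi, this]
    · funext i
      by_cases hi : i = 0
      · subst hi; simp [inp]
      · have : (i : ℕ) ≠ 0 := fun h => hi (Fin.ext h)
        simp [inp, hi, this]
  refine ⟨{ tm := (c.map (Fin.ofNat (c.bd + 1))).toTM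
            inputAlphabet := Equiv.refl Bool
            outputAlphabet := Equiv.refl Bool
            time := p + 1
            outputsFun := ?_ }⟩
  intro x
  have hx := key x
  have ht := hx.choose_spec.1
  have hm := hx.choose_spec.2.some
  refine outputs_conv (List.map_id (ea x)).symm (List.map_id (eb (f x))).symm (ht.trans ?_) hm
  simp

section

variable {α : Type} [TEnc α]

lemma p_zipWith {f g : α → List Bool} {F : Bool → Bool → Bool} (hf : Poly f) (hg : Poly g)
    (hF : Poly fun p : Bool × Bool => F p.1 p.2) :
    Poly (fun a => List.zipWith F (f a) (g a)) := by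
  refine (Poly.map (F := fun (_ : α) (p : Bool × Bool) => F p.1 p.2) (Poly.zip hf hg)
    (hF.comp (Poly.snd Poly.id))).congr fun a => ?_
  rw [List.zip, List.map_zipWith]

lemma p_xorV {f g : α → List Bool} (hf : Poly f) (hg : Poly g) :
    Poly (fun a => xorV (f a) (g a)) :=
  p_zipWith hf hg (Poly.xor (Poly.fst Poly.id) (Poly.snd Poly.id))

lemma p_orV {f g : α → List Bool} (hf : Poly f) (hg : Poly g) :
    Poly (fun a => orV (f a) (g a)) :=
  p_zipWith hf hg (Poly.or (Poly.fst Poly.id) (Poly.snd Poly.id))

lemma p_meets {f g : α → List Bool} (hf : Poly f) (hg : Poly g) :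
    Poly (fun a => meets (f a) (g a)) :=
  Poly.any (p := fun _ b => id b) (p_zipWith hf hg (Poly.and (Poly.fst Poly.id)
    (Poly.snd Poly.id))) (Poly.snd Poly.id)

lemma p_isZero {f : α → List Bool} (hf : Poly f) : Poly (fun a => isZero (f a)) :=
  Poly.not (Poly.any (p := fun _ b => id b) hf (Poly.snd Poly.id))

lemma p_subV {f g : α → List Bool} (hf : Poly f) (hg : Poly g) :
    Poly (fun a => subV (f a) (g a)) :=
  Poly.all (p := fun _ b => id b) (p_zipWith hf hg (Poly.or (Poly.not (Poly.fst Poly.id))
    (Poly.snd Poly.id))) (Poly.snd Poly.id)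

lemma p_gvec {f : α → List Bool × List Bool} (hf : Poly f) : Poly (fun a => gvec (f a)) :=
  p_xorV (Poly.fst hf) (Poly.snd hf)

lemma p_good {f : α → List Bool × List Bool} (hf : Poly f) : Poly (fun a => good (f a)) :=
  p_meets (Poly.fst hf) (p_gvec hf)

/-! #### units -/

lemma units_len {β : Type} (A : List β) : (units A).length = A.length ∧
    ∀ v ∈ units A, v.length = A.length := by
  induction A with
  | nil => simp [units]
  | cons a A ih =>
    have h : units (a :: A) = (true :: (units A).map (fun _ => false)) ::
      (units A).map (fun v => false :: v) := rfl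
    rw [h]
    refine ⟨by simp [ih.1], ?_⟩
    intro v hv
    rcases List.mem_cons.mp hv with rfl | hv
    · simp [ih.1]
    · obtain ⟨w, hw, rfl⟩ := List.mem_map.mp hv
      simp [ih.2 w hw]

lemma sz_units_le {β : Type} (A : List β) :
    sz (units A) ≤ A.length * (4 * A.length + 2) + 1 := by
  have h := units_len A
  have h1 := sz_le_length_mul (units A) (4 * A.length + 1) (by
    intro v hv
    have := sz_listBool_le v
    rw [h.2 v hv] at this
    exact this)
  rw [h.1] at h1
  exact h1

lemma p_units {β : Type} [TEnc β] {A : α → List β} (hA : Poly A) :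
    Poly (fun a => units (A a)) := by
  obtain ⟨r, hr⟩ := hA.sz_le
  refine Poly.foldr (F := fun (_ : α) (_ : β) (acc : List (List Bool)) =>
    (true :: acc.map (fun _ => false)) :: acc.map (fun v => false :: v)) hA
    (Poly.const ([] : List (List Bool))) ?_
    (r * (Polynomial.C 4 * r + Polynomial.C 2) + Polynomial.C 1) ?_
  · refine Poly.cons (Poly.cons (Poly.const true) (Poly.map (F := fun _ _ => false)
      (Poly.snd (Poly.snd Poly.id)) (Poly.const false)))
      (Poly.map (F := fun _ v => false :: v) (Poly.snd (Poly.snd Poly.id))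
        (Poly.cons (Poly.const false) (Poly.snd Poly.id)))
  · intro a k hk
    have h1 := sz_units_le ((A a).drop k)
    have h2 : ((A a).drop k).length ≤ r.eval (sz a) := by
      have := length_lt_sz (A a)
      have := hr a
      simp
      omega
    change sz (units ((A a).drop k)) ≤ _
    refine h1.trans ?_
    simp only [Polynomial.eval_add, Polynomial.eval_mul, Polynomial.eval_C]
    have h3 : 4 * ((A a).drop k).length + 2 ≤ 4 * r.eval (sz a) + 2 := by omega
    exact Nat.add_le_add_right (Nat.mul_le_mul h2 h3) 1

lemma p_lowVecs {β : Type} [TEnc β] {A : α → List β} (hA : Poly A) (k : ℕ) :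
    Poly (fun a => lowVecs (A a) k) := by
  induction k with
  | zero =>
    exact Poly.cons (Poly.map (F := fun _ _ => false) hA (Poly.const false)) (Poly.const [])
  | succ k ih =>
    refine Poly.flatMap (F := fun a w => w :: (units (A a)).map (orV w)) ih ?_
    refine Poly.cons (Poly.snd Poly.id) ?_
    refine Poly.map (F := fun (p : α × List Bool) e => orV p.2 e)
      (p_units (hA.comp (Poly.fst Poly.id))) ?_
    exact p_orV (Poly.snd (Poly.fst Poly.id)) (Poly.snd Poly.id)

lemma p_choices {β : Type} [TEnc β] {A : α → List β} (hA : Poly A) (k : ℕ) {row : α → List Bool}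
    (hrow : Poly row) : Poly (fun a => choices (A a) k (row a)) := by
  refine Poly.filter (p := fun a W => subV W (row a) &&
    (W == row a || !(lowVecs (A a) k).contains W)) (p_lowVecs hA (k + 1)) ?_
  refine Poly.and (p_subV (Poly.snd Poly.id) (hrow.comp (Poly.fst Poly.id))) ?_
  refine Poly.or ?_ (Poly.not ?_)
  · exact (Poly.decide_eq (Poly.snd Poly.id) (hrow.comp (Poly.fst Poly.id))).congr fun p => by
      rw [Bool.eq_iff_iff]
      simp
  · exact (Poly.decide_mem (Poly.snd Poly.id)
      ((p_lowVecs hA k).comp (Poly.fst Poly.id))).congr fun p => by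
      rw [eq_comm, Bool.eq_iff_iff]
      simp

lemma p_genList (sinks : Bool) (k : ℕ) {A : α → List (List Bool)} (hA : Poly A) :
    Poly (fun a => genList sinks k (A a)) := by
  refine Poly.flatMap (F := fun a (p : List Bool × List Bool) =>
    if !sinks && isZero p.2 then [] else (choices (A a) k p.2).map fun W => (p.1, W))
    (Poly.zip (p_units hA) hA) ?_
  have h1 : Poly (fun x : α × (List Bool × List Bool) =>
      bif (!sinks && isZero x.2.2) then ([] : List (List Bool × List Bool)) else
        (choices (A x.1) k x.2.2).map fun W => (x.2.1, W)) := by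
    refine Poly.cond (Poly.and (Poly.const (!sinks)) (p_isZero (Poly.snd (Poly.snd Poly.id))))
      (Poly.const []) ?_
    refine Poly.map (F := fun (x : α × (List Bool × List Bool)) W => (x.2.1, W))
      (p_choices (hA.comp (Poly.fst Poly.id)) k (Poly.snd (Poly.snd Poly.id))) ?_
    exact Poly.pair (Poly.fst (Poly.snd (Poly.fst Poly.id))) (Poly.snd Poly.id)
  refine h1.congr fun x => ?_
  cases h : (!sinks && isZero x.2.2) <;> simp

/-! #### linear algebra -/

lemma p_pivotBit {f g : α → List Bool} (hf : Poly f) (hg : Poly g) :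
    Poly (fun a => pivotBit (f a) (g a)) := by
  refine Poly.foldr (F := fun (_ : α) (p : Bool × Bool) acc => if p.1 then p.2 else acc)
    (Poly.zip hf hg) (Poly.const false) ?_ (Polynomial.C 3) ?_
  · refine (Poly.cond (Poly.fst (Poly.fst (Poly.snd Poly.id)))
      (Poly.snd (Poly.fst (Poly.snd Poly.id))) (Poly.snd (Poly.snd Poly.id))).congr fun x => ?_
    cases h : x.2.1.1 <;> simp
  · intro a k _
    simp only [Polynomial.eval_C]
    exact sz_bool_le _

lemma p_reduceStep {f g : α → List Bool} (hf : Poly f) (hg : Poly g) :
    Poly (fun a => reduceStep (f a) (g a)) := by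
  refine (Poly.cond (p_pivotBit hg hf) (p_xorV hf hg) hf).congr fun a => ?_
  rw [reduceStep]
  cases h : pivotBit (g a) (f a) <;> simp

lemma length_xorV_le (a b : List Bool) : (xorV a b).length ≤ a.length := by
  simp [xorV]

lemma length_reduce_le (B : List (List Bool)) (v : List Bool) :
    (reduce B v).length ≤ v.length := by
  induction B generalizing v with
  | nil => exact le_rfl
  | cons b B ih =>
    change (reduce B (reduceStep v b)).length ≤ _
    refine (ih _).trans ?_
    unfold reduceStep
    split
    · exact length_xorV_le _ _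
    · exact le_rfl

lemma p_reduce {B : α → List (List Bool)} {v : α → List Bool} (hB : Poly B) (hv : Poly v) :
    Poly (fun a => reduce (B a) (v a)) := by
  obtain ⟨r, hr⟩ := hv.sz_le
  refine Poly.foldl (F := fun (_ : α) v b => reduceStep v b) hB hv
    (p_reduceStep (Poly.fst (Poly.snd Poly.id)) (Poly.snd (Poly.snd Poly.id)))
    (Polynomial.C 4 * r + Polynomial.C 1) ?_
  intro a k _
  have h1 := length_reduce_le ((B a).take k) (v a)
  have h2 := sz_listBool_le (reduce ((B a).take k) (v a))
  have h3 := length_lt_sz (v a)
  have h4 := hr a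
  change sz (reduce ((B a).take k) (v a)) ≤ _
  simp only [Polynomial.eval_add, Polynomial.eval_mul, Polynomial.eval_C]
  omega

lemma p_insertV {B : α → List (List Bool)} {v : α → List Bool} (hB : Poly B) (hv : Poly v) :
    Poly (fun a => insertV (B a) (v a)) := by
  refine (Poly.cond (p_isZero (p_reduce hB hv)) hB (Poly.append hB
    (Poly.cons (p_reduce hB hv) (Poly.const [])))).congr fun a => ?_
  rw [insertV]
  cases h : isZero (reduce (B a) (v a)) <;> simp

lemma insert_bounds (m : ℕ) : ∀ (gs B : List (List Bool)), (∀ g ∈ gs, g.length ≤ m) →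
    (∀ b ∈ B, b.length ≤ m) → (gs.foldl insertV B).length ≤ gs.length + B.length ∧
      ∀ b ∈ gs.foldl insertV B, b.length ≤ m := by
  intro gs
  induction gs with
  | nil => intro B _ hB; exact ⟨by simp, hB⟩
  | cons g gs ih =>
    intro B hgs hB
    have h0 : (insertV B g).length ≤ B.length + 1 ∧ ∀ b ∈ insertV B g, b.length ≤ m := by
      unfold insertV
      split
      · exact ⟨by omega, hB⟩
      · refine ⟨by simp, ?_⟩
        intro b hb
        rcases List.mem_append.mp hb with h | h
        · exact hB b h
        · rw [List.mem_singleton] at h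
          rw [h]
          exact (length_reduce_le B g).trans (hgs g (by simp))
    obtain ⟨h1, h2⟩ := ih (insertV B g) (fun g' hg' => hgs g' (List.mem_cons_of_mem _ hg')) h0.2
    refine ⟨?_, h2⟩
    rw [List.foldl_cons, List.length_cons]
    omega

lemma p_echelon {gs : α → List (List Bool)} (hgs : Poly gs) :
    Poly (fun a => echelon (gs a)) := by
  obtain ⟨r, hr⟩ := hgs.sz_le
  refine Poly.foldl (F := fun (_ : α) B v => insertV B v) hgs
    (Poly.const ([] : List (List Bool)))
    (p_insertV (Poly.fst (Poly.snd Poly.id)) (Poly.snd (Poly.snd Poly.id)))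
    (r * (Polynomial.C 4 * r + Polynomial.C 2) + Polynomial.C 1) ?_
  intro a k _
  obtain ⟨h1, h2⟩ := insert_bounds (r.eval (sz a)) ((gs a).take k) [] (by
    intro g hg
    have h3 := length_lt_sz g
    have h4 := sz_le_of_mem (List.mem_of_mem_take hg)
    have := hr a
    omega) (by simp)
  have h3 := sz_le_length_mul (((gs a).take k).foldl insertV []) (4 * r.eval (sz a) + 1) (by
    intro v hv
    have := sz_listBool_le v
    have := h2 v hv
    omega)
  have h4 : (((gs a).take k).foldl insertV []).length ≤ r.eval (sz a) := by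
    have := length_lt_sz (gs a)
    have := hr a
    simp at h1
    omega
  refine h3.trans ?_
  simp only [Polynomial.eval_add, Polynomial.eval_mul, Polynomial.eval_C]
  exact Nat.add_le_add_right (Nat.mul_le_mul_right _ h4) 1

lemma p_member {gs : α → List (List Bool)} {v : α → List Bool} (hgs : Poly gs) (hv : Poly v) :
    Poly (fun a => member (gs a) (v a)) :=
  p_isZero (p_reduce (p_echelon hgs) hv)

/-! #### the main loop -/

lemma p_goods {gens : α → List (List Bool × List Bool)} (hg : Poly gens) :
    Poly (fun a => (gens a).filter good) :=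
  Poly.filter (p := fun _ g => good g) hg (p_good (Poly.snd Poly.id))

lemma p_cands {gens : α → List (List Bool × List Bool)} (hg : Poly gens) :
    Poly (fun a => cands (gens a)) := by
  refine Poly.flatMap (F := fun a g => ((gens a).filter good).map fun g' =>
    xorV (gvec g) (gvec g')) hg ?_
  refine Poly.map (F := fun (x : α × (List Bool × List Bool)) g' => xorV (gvec x.2) (gvec g'))
    ((p_goods hg).comp (Poly.fst Poly.id)) ?_
  exact p_xorV (p_gvec (Poly.snd (Poly.fst Poly.id))) (p_gvec (Poly.snd Poly.id))

lemma p_beq {f g : α → List Bool} (hf : Poly f) (hg : Poly g) :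
    Poly (fun a => f a == g a) :=
  (Poly.decide_eq hf hg).congr fun a => by
    rw [Bool.eq_iff_iff]
    simp

lemma p_sinksL {un : α → List (List Bool)} {gens : α → List (List Bool × List Bool)}
    (hu : Poly un) (hg : Poly gens) : Poly (fun a => sinksL (un a) (gens a)) := by
  refine Poly.filter (p := fun a e => (gens a).all fun g => !(g.1 == e)) hu ?_
  refine Poly.all (p := fun (x : α × List Bool) g => !(g.1 == x.2))
    (hg.comp (Poly.fst Poly.id)) ?_
  exact Poly.not (p_beq (Poly.fst (Poly.snd Poly.id)) (Poly.snd (Poly.fst Poly.id)))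

lemma p_ulist {un : α → List (List Bool)} {gens : α → List (List Bool × List Bool)}
    {L : α → List (List Bool)} {z : α → List Bool} (hu : Poly un) (hg : Poly gens)
    (hL : Poly L) (hz : Poly z) : Poly (fun a => ulist (un a) (gens a) (L a) (z a)) := by
  refine Poly.filter (p := fun a e => (gens a).all fun g => !(g.1 == e) ||
    ((gens a).filter good).any fun g' => member (L a) (xorV (xorV (z a) (gvec g)) (gvec g')))
    hu ?_
  refine Poly.all (p := fun (x : α × List Bool) g => !(g.1 == x.2) ||
    ((gens x.1).filter good).any fun g' =>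
      member (L x.1) (xorV (xorV (z x.1) (gvec g)) (gvec g'))) (hg.comp (Poly.fst Poly.id)) ?_
  refine Poly.or (Poly.not (p_beq (Poly.fst (Poly.snd Poly.id))
    (Poly.snd (Poly.fst Poly.id)))) ?_
  refine Poly.any (p := fun (y : (α × List Bool) × (List Bool × List Bool)) g' =>
      member (L y.1.1) (xorV (xorV (z y.1.1) (gvec y.2)) (gvec g')))
      ((p_goods hg).comp (Poly.fst (Poly.fst Poly.id))) ?_
  exact p_member (hL.comp (Poly.fst (Poly.fst (Poly.fst Poly.id))))
    (p_xorV (p_xorV (hz.comp (Poly.fst (Poly.fst (Poly.fst Poly.id))))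
      (p_gvec (Poly.snd (Poly.fst Poly.id)))) (p_gvec (Poly.snd Poly.id)))

lemma p_test {un : α → List (List Bool)} {gens : α → List (List Bool × List Bool)}
    {L : α → List (List Bool)} {z : α → List Bool} (hu : Poly un) (hg : Poly gens)
    (hL : Poly L) (hz : Poly z) : Poly (fun a => test (un a) (gens a) (L a) (z a)) :=
  p_member (Poly.append hL (p_ulist hu hg hL hz)) hz

lemma p_step {un : α → List (List Bool)} {gens : α → List (List Bool × List Bool)}
    {L : α → List (List Bool)} (hu : Poly un) (hg : Poly gens)
    (hL : Poly L) : Poly (fun a => step (un a) (gens a) (L a)) :=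
  Poly.append (p_sinksL hu hg) (Poly.filter (p := fun a z => test (un a) (gens a) (L a) z)
    (p_cands hg) (p_test (hu.comp (Poly.fst Poly.id)) (hg.comp (Poly.fst Poly.id))
      (hL.comp (Poly.fst Poly.id)) (Poly.snd Poly.id)))

lemma sz_filter_le {β : Type} [TEnc β] (l : List β) (p : β → Bool) : sz (l.filter p) ≤ sz l := by
  induction l with
  | nil => simp
  | cons b l ih =>
    rw [List.filter_cons]
    split
    · simp; omega
    · simp; omega

lemma sz_step_le (un : List (List Bool)) (gens : List (List Bool × List Bool))
    (L : List (List Bool)) : sz (step un gens L) ≤ sz un + sz (cands gens) := by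
  have h1 := sz_append (sinksL un gens) ((cands gens).filter (test un gens L))
  have h2 := sz_filter_le un (fun e => gens.all fun g => !(g.1 == e))
  have h3 := sz_filter_le (cands gens) (test un gens L)
  change sz (sinksL un gens) ≤ _ at h2
  change sz (sinksL un gens ++ (cands gens).filter (test un gens L)) ≤ _
  omega

lemma p_psub {un : α → List (List Bool)} {gens : α → List (List Bool × List Bool)}
    (hu : Poly un) (hg : Poly gens) : Poly (fun a => psub (un a) (gens a)) := by
  obtain ⟨r, hr⟩ := hu.sz_le
  obtain ⟨q, hq⟩ := (p_cands hg).sz_le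
  refine Poly.foldl (l := fun a => ([] : List Bool) :: cands (gens a))
    (F := fun a L (_ : List Bool) => step (un a) (gens a) L)
    (Poly.cons (Poly.const []) (p_cands hg)) (Poly.const ([] : List (List Bool)))
    (p_step (hu.comp (Poly.fst Poly.id)) (hg.comp (Poly.fst Poly.id))
      (Poly.fst (Poly.snd Poly.id))) (r + q + Polynomial.C 1) ?_
  intro a k _
  have key : ∀ (l : List (List Bool)) (s : List (List Bool)), sz s ≤ sz (un a) +
      sz (cands (gens a)) →
      sz (l.foldl (fun L _ => step (un a) (gens a) L) s) ≤ sz (un a) + sz (cands (gens a)) := by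
    intro l
    induction l with
    | nil => intro s hs; exact hs
    | cons b l ih =>
      intro s _
      rw [List.foldl_cons]
      exact ih _ (sz_step_le _ _ _)
  have h0 : sz ([] : List (List Bool)) ≤ sz (un a) + sz (cands (gens a)) := by
    have := sz_pos (un a)
    simp
    omega
  refine (key _ _ h0).trans ?_
  have h1 := hr a
  have h2 := hq a
  simp only [Polynomial.eval_add, Polynomial.eval_C]
  omega

lemma p_isNpos {gens : α → List (List Bool × List Bool)} {L : α → List (List Bool)}
    {v : α → List Bool} (hg : Poly gens) (hL : Poly L) (hv : Poly v) :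
    Poly (fun a => isNpos (gens a) (L a) (v a)) := by
  refine Poly.any (p := fun a g => meets g.1 (v a) && member (L a) (xorV (v a) (gvec g))) hg ?_
  exact Poly.and (p_meets (Poly.fst (Poly.snd Poly.id)) (hv.comp (Poly.fst Poly.id)))
    (p_member (hL.comp (Poly.fst Poly.id)) (p_xorV (hv.comp (Poly.fst Poly.id))
      (p_gvec (Poly.snd Poly.id))))

lemma p_winMoves {gens : α → List (List Bool × List Bool)} {L : α → List (List Bool)}
    {v : α → List Bool} (hg : Poly gens) (hL : Poly L) (hv : Poly v) :
    Poly (fun a => winMoves (gens a) (L a) (v a)) := by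
  refine Poly.filter (p := fun a g => meets g.1 (v a) && member (L a) (xorV (v a) (gvec g)))
    hg ?_
  exact Poly.and (p_meets (Poly.fst (Poly.snd Poly.id)) (hv.comp (Poly.fst Poly.id)))
    (p_member (hL.comp (Poly.fst Poly.id)) (p_xorV (hv.comp (Poly.fst Poly.id))
      (p_gvec (Poly.snd Poly.id))))

lemma p_drawMoves {gens : α → List (List Bool × List Bool)} {L : α → List (List Bool)}
    {v : α → List Bool} (hg : Poly gens) (hL : Poly L) (hv : Poly v) :
    Poly (fun a => drawMoves (gens a) (L a) (v a)) := by
  refine Poly.filter (p := fun a g => meets g.1 (v a) &&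
    !(isNpos (gens a) (L a) (xorV (v a) (gvec g)))) hg ?_
  exact Poly.and (p_meets (Poly.fst (Poly.snd Poly.id)) (hv.comp (Poly.fst Poly.id)))
    (Poly.not (p_isNpos (hg.comp (Poly.fst Poly.id)) (hL.comp (Poly.fst Poly.id))
      (p_xorV (hv.comp (Poly.fst Poly.id)) (p_gvec (Poly.snd Poly.id)))))

lemma p_answer {gens : α → List (List Bool × List Bool)} {L : α → List (List Bool)}
    {v : α → List Bool} (hg : Poly gens) (hL : Poly L) (hv : Poly v) :
    Poly (fun a => answer (gens a) (L a) (v a)) :=
  Poly.pair (Poly.pair (p_member hL hv) (p_isNpos hg hL hv))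
    (Poly.head?_getD (Poly.append (p_winMoves hg hL hv) (p_drawMoves hg hL hv)) ([], []))

end

theorem p_solve (sinks : Bool) (k : ℕ) : Poly (solve sinks k) := by
  have h1 : Poly (fun inp : List (List Bool) × List Bool => genList sinks k inp.1) :=
    p_genList sinks k (Poly.fst Poly.id)
  exact p_answer h1 (p_psub (p_units (Poly.fst Poly.id)) h1) (Poly.snd Poly.id)

theorem solve_polyTime (sinks : Bool) (k : ℕ) :
    Nonempty (TM2ComputableInPolyTime
      (bits : List (List Bool) × List Bool → List Bool)
      (bits : (Bool × Bool) × (List Bool × List Bool) → List Bool) (solve sinks k)) :=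
  toTM2 (p_solve sinks k)

end Pool.Agent.H656R2.NPC.H656Annih
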